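import Pool.Agent.Lib.MP_0d9be2_nt.Defs

/-!
# Two models with unit discriminant at a prime have isomorphic reductions (PART 3.1)
-/

set_option autoImplicit false

open scoped NumberField
open IsDedekindDomain

namespace Pool.Agent.MP_0d9be2.H29

section points

variable {k : Type*} [CommRing k]

/-- The points of `C • W` and of `W` correspond. -/
theorem equation_smul (W : WeierstrassCurve k) (C : WeierstrassCurve.VariableChange k) (x y : k) :
    (C • W).toAffine.Equation x y ↔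
      W.toAffine.Equation ((C.u : k) ^ 2 * x + C.r)
        ((C.u : k) ^ 3 * y + (C.u : k) ^ 2 * C.s * x + C.t) := by
  have hu : ((C.u⁻¹ : kˣ) : k) * (C.u : k) = 1 := C.u.inv_mul
  rw [WeierstrassCurve.Affine.equation_iff', WeierstrassCurve.Affine.equation_iff']
  simp only [WeierstrassCurve.variableChange_def]
  set w : k := ((C.u⁻¹ : kˣ) : k) with hw
  set u : k := (C.u : k) with hu'
  have key : (u ^ 3 * y + u ^ 2 * C.s * x + C.t) ^ 2
      + W.a₁ * (u ^ 2 * x + C.r) * (u ^ 3 * y + u ^ 2 * C.s * x + C.t)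
      + W.a₃ * (u ^ 3 * y + u ^ 2 * C.s * x + C.t)
      - ((u ^ 2 * x + C.r) ^ 3 + W.a₂ * (u ^ 2 * x + C.r) ^ 2 + W.a₄ * (u ^ 2 * x + C.r) + W.a₆)
      = u ^ 6 * (y ^ 2 + w * (W.a₁ + 2 * C.s) * x * y
        + w ^ 3 * (W.a₃ + C.r * W.a₁ + 2 * C.t) * y
        - (x ^ 3 + w ^ 2 * (W.a₂ - C.s * W.a₁ + 3 * C.r - C.s ^ 2) * x ^ 2
          + w ^ 4 * (W.a₄ - C.s * W.a₃ + 2 * C.r * W.a₂ - (C.t + C.r * C.s) * W.a₁
            + 3 * C.r ^ 2 - 2 * C.s * C.t) * x
          + w ^ 6 * (W.a₆ + C.r * W.a₄ + C.r ^ 2 * W.a₂ + C.r ^ 3 - C.t * W.a₃ - C.t ^ 2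
            - C.r * C.t * W.a₁))) := by
    have h1 : u ^ 6 * w = u ^ 5 := by
      calc u ^ 6 * w = u ^ 5 * (w * u) := by ring
        _ = u ^ 5 := by rw [hu, mul_one]
    have h2 : u ^ 6 * w ^ 2 = u ^ 4 := by
      calc u ^ 6 * w ^ 2 = u ^ 4 * (w * u) ^ 2 := by ring
        _ = u ^ 4 := by rw [hu, one_pow, mul_one]
    have h3 : u ^ 6 * w ^ 3 = u ^ 3 := by
      calc u ^ 6 * w ^ 3 = u ^ 3 * (w * u) ^ 3 := by ring
        _ = u ^ 3 := by rw [hu, one_pow, mul_one]
    have h4 : u ^ 6 * w ^ 4 = u ^ 2 := by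
      calc u ^ 6 * w ^ 4 = u ^ 2 * (w * u) ^ 4 := by ring
        _ = u ^ 2 := by rw [hu, one_pow, mul_one]
    have h6 : u ^ 6 * w ^ 6 = 1 := by
      calc u ^ 6 * w ^ 6 = (w * u) ^ 6 := by ring
        _ = 1 := by rw [hu, one_pow]
    linear_combination
      (-(W.a₁ + 2 * C.s) * x * y) * h1
      + ((W.a₂ - C.s * W.a₁ + 3 * C.r - C.s ^ 2) * x ^ 2) * h2
      - ((W.a₃ + C.r * W.a₁ + 2 * C.t) * y) * h3
      + ((W.a₄ - C.s * W.a₃ + 2 * C.r * W.a₂ - (C.t + C.r * C.s) * W.a₁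
            + 3 * C.r ^ 2 - 2 * C.s * C.t) * x) * h4
      + (W.a₆ + C.r * W.a₄ + C.r ^ 2 * W.a₂ + C.r ^ 3 - C.t * W.a₃ - C.t ^ 2
            - C.r * C.t * W.a₁) * h6
  rw [key]
  constructor
  · intro h
    rw [h, mul_zero]
  · intro h
    have h6 : w ^ 6 * u ^ 6 = 1 := by
      calc w ^ 6 * u ^ 6 = (w * u) ^ 6 := by ring
        _ = 1 := by rw [hu, one_pow]
    calc _ = (w ^ 6 * u ^ 6) * _ := by rw [h6, one_mul]
      _ = w ^ 6 * (u ^ 6 * _) := by rw [mul_assoc]
      _ = 0 := by rw [h, mul_zero]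

/-- The bijection of the plane given by a variable change. -/
def planeEquiv (C : WeierstrassCurve.VariableChange k) : k × k ≃ k × k where
  toFun q := ((C.u : k) ^ 2 * q.1 + C.r, (C.u : k) ^ 3 * q.2 + (C.u : k) ^ 2 * C.s * q.1 + C.t)
  invFun q := (((C.u⁻¹ : kˣ) : k) ^ 2 * (q.1 - C.r),
    ((C.u⁻¹ : kˣ) : k) ^ 3 * (q.2 - C.t - C.s * (q.1 - C.r)))
  left_inv q := by
    have hu : ((C.u⁻¹ : kˣ) : k) * (C.u : k) = 1 := C.u.inv_mul
    ext
    · calc ((C.u⁻¹ : kˣ) : k) ^ 2 * ((C.u : k) ^ 2 * q.1 + C.r - C.r)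
          = (((C.u⁻¹ : kˣ) : k) * (C.u : k)) ^ 2 * q.1 := by ring
        _ = q.1 := by rw [hu, one_pow, one_mul]
    · calc ((C.u⁻¹ : kˣ) : k) ^ 3 * ((C.u : k) ^ 3 * q.2 + (C.u : k) ^ 2 * C.s * q.1 + C.t
            - C.t - C.s * ((C.u : k) ^ 2 * q.1 + C.r - C.r))
          = (((C.u⁻¹ : kˣ) : k) * (C.u : k)) ^ 3 * q.2 := by ring
        _ = q.2 := by rw [hu, one_pow, one_mul]
  right_inv q := by
    have hu : ((C.u⁻¹ : kˣ) : k) * (C.u : k) = 1 := C.u.inv_mul
    ext
    · calc (C.u : k) ^ 2 * (((C.u⁻¹ : kˣ) : k) ^ 2 * (q.1 - C.r)) + C.r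
          = (((C.u⁻¹ : kˣ) : k) * (C.u : k)) ^ 2 * (q.1 - C.r) + C.r := by ring
        _ = q.1 := by rw [hu]; ring
    · calc (C.u : k) ^ 3 * (((C.u⁻¹ : kˣ) : k) ^ 3 * (q.2 - C.t - C.s * (q.1 - C.r)))
            + (C.u : k) ^ 2 * C.s * (((C.u⁻¹ : kˣ) : k) ^ 2 * (q.1 - C.r)) + C.t
          = (((C.u⁻¹ : kˣ) : k) * (C.u : k)) ^ 3 * (q.2 - C.t - C.s * (q.1 - C.r))
            + (((C.u⁻¹ : kˣ) : k) * (C.u : k)) ^ 2 * C.s * (q.1 - C.r) + C.t := by ring
        _ = q.2 := by rw [hu]; ring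

/-- Isomorphic Weierstrass curves have the same number of affine points. -/
theorem card_smul (W : WeierstrassCurve k) (C : WeierstrassCurve.VariableChange k) :
    Nat.card {xy : k × k // (C • W).toAffine.Equation xy.1 xy.2} =
      Nat.card {xy : k × k // W.toAffine.Equation xy.1 xy.2} := by
  refine Nat.card_congr ((planeEquiv C).subtypeEquiv ?_)
  intro q
  exact equation_smul W C q.1 q.2

end points

section integral

variable {Γ : Type*} [LinearOrderedCommGroupWithZero Γ] {K : Type*} [Field K]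
  (v : Valuation K Γ)

theorem val_quadratic {x a b : K} (ha : v a ≤ 1) (hb : v b ≤ 1) (h : x ^ 2 = a * x + b) :
    v x ≤ 1 := by
  by_contra hx
  rw [not_le] at hx
  have h1 : v (x ^ 2) ≤ v x := by
    rw [h]
    refine (v.map_add _ _).trans (max_le ?_ (hb.trans hx.le))
    rw [map_mul]
    exact mul_le_of_le_one_left' ha
  rw [map_pow, pow_two] at h1
  have hpos : 0 < v x := lt_trans zero_lt_one hx
  have h2 : v x * 1 < v x * v x := by
    exact mul_lt_mul_of_pos_left hx hpos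
  rw [mul_one] at h2
  exact absurd h1 (not_le.mpr h2)

theorem val_quartic {x a b c : K} (ha : v a ≤ 1) (hb : v b ≤ 1) (hc : v c ≤ 1)
    (h : x ^ 4 = a * x ^ 2 + b * x + c) : v x ≤ 1 := by
  by_contra hx
  rw [not_le] at hx
  have hpos : 0 < v x := lt_trans zero_lt_one hx
  have h2 : v x * 1 < v x * v x := mul_lt_mul_of_pos_left hx hpos
  rw [mul_one] at h2
  have h1 : v (x ^ 4) ≤ v x * v x := by
    rw [h]
    refine (v.map_add _ _).trans (max_le ((v.map_add _ _).trans (max_le ?_ ?_)) ?_)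
    · rw [map_mul, map_pow, pow_two]
      exact mul_le_of_le_one_left' ha
    · rw [map_mul]
      exact (mul_le_of_le_one_left' hb).trans h2.le
    · exact hc.trans (hx.le.trans h2.le)
  rw [map_pow] at h1
  have h3 : v x * v x * 1 < v x * v x * (v x * v x) :=
    mul_lt_mul_of_pos_left (lt_trans hx h2) (mul_pos hpos hpos)
  rw [mul_one] at h3
  have h4 : v x ^ 4 = v x * v x * (v x * v x) := by
    simp only [pow_succ, pow_zero, one_mul, mul_assoc]
  rw [h4] at h1
  exact absurd h1 (not_le.mpr h3)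

end integral

section dedekind

variable {R : Type*} [CommRing R] [IsDedekindDomain R] {K : Type*} [Field K] [Algebra R K]
  [IsFractionRing R K] (v : HeightOneSpectrum R)

/-- The localisation of `R` at `v`, as a subring of `K`. -/
noncomputable abbrev Loc (K : Type*) [Field K] [Algebra R K] [IsFractionRing R K] (v : HeightOneSpectrum R) :
    ValuationSubring K := HeightOneSpectrum.valuationSubringAtPrime K v

theorem mem_loc {x : K} (hx : v.valuation K x ≤ 1) : x ∈ Loc K v := by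
  have h : Loc K v = (v.valuation K).valuationSubring :=
    HeightOneSpectrum.valuationSubringAtPrime_eq_valuationSubring v
  rw [h]
  exact hx

attribute [local instance] Ideal.Quotient.field

/-- The reduction map from the localisation. -/
noncomputable def red : Loc K v →+* R ⧸ v.asIdeal :=
  haveI : v.asIdeal.IsMaximal := v.isMaximal
  IsLocalization.lift (M := v.asIdeal.primeCompl) (g := Ideal.Quotient.mk v.asIdeal) (by
    intro y
    refine IsUnit.mk0 _ ?_
    rw [Ne, Ideal.Quotient.eq_zero_iff_mem]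
    exact y.2)

theorem red_comp : (red (K := K) v).comp (algebraMap R (Loc K v)) = Ideal.Quotient.mk v.asIdeal :=
  IsLocalization.lift_comp _

/-- Two curves over `R` which are isomorphic over `K` and have unit discriminants at `v` have
isomorphic reductions modulo `v`. -/
theorem exists_change (W W' : WeierstrassCurve R) (D : WeierstrassCurve.VariableChange K)
    (hD : D • W.map (algebraMap R K) = W'.map (algebraMap R K))
    (hW : W.Δ ∉ v.asIdeal) (hW' : W'.Δ ∉ v.asIdeal) :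
    ∃ C : WeierstrassCurve.VariableChange (R ⧸ v.asIdeal),
      C • W.map (Ideal.Quotient.mk v.asIdeal) = W'.map (Ideal.Quotient.mk v.asIdeal) := by
  set φ := algebraMap R K with hφ
  have hint : ∀ a : R, v.valuation K (φ a) ≤ 1 := fun a => v.valuation_le_one a
  have hu0 : ((D.u : Kˣ) : K) ≠ 0 := D.u.ne_zero
  -- `u` is a unit
  have hΔ : φ W'.Δ = ((D.u⁻¹ : Kˣ) : K) ^ 12 * φ W.Δ := by
    have h := congrArg WeierstrassCurve.Δ hD
    rw [WeierstrassCurve.variableChange_Δ, WeierstrassCurve.map_Δ, WeierstrassCurve.map_Δ] at h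
    exact h.symm
  have h1 : v.valuation K (φ W.Δ) = 1 := by
    rw [hφ, HeightOneSpectrum.valuation_eq_one_iff_notMem]
    exact hW
  have h1' : v.valuation K (φ W'.Δ) = 1 := by
    rw [hφ, HeightOneSpectrum.valuation_eq_one_iff_notMem]
    exact hW'
  have hw : v.valuation K ((D.u⁻¹ : Kˣ) : K) = 1 := by
    have h := congrArg (v.valuation K) hΔ
    rw [map_mul, map_pow, h1, h1', mul_one] at h
    exact (pow_eq_one_iff_of_nonneg zero_le (by norm_num)).mp h.symm
  have huv : v.valuation K ((D.u : Kˣ) : K) = 1 := by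
    have h := congrArg (v.valuation K) (D.u.mul_inv)
    rw [map_mul, hw, mul_one, map_one] at h
    exact h
  have hui : (D.u : K) * ((D.u⁻¹ : Kˣ) : K) = 1 := D.u.mul_inv
  have ha2 : φ W'.a₂ = ((D.u⁻¹ : Kˣ) : K) ^ 2 * (φ W.a₂ - D.s * φ W.a₁ + 3 * D.r - D.s ^ 2) := by
    have h := congrArg WeierstrassCurve.a₂ hD
    rw [WeierstrassCurve.variableChange_a₂] at h
    exact h.symm
  have ha6 : φ W'.a₆ = ((D.u⁻¹ : Kˣ) : K) ^ 6 * (φ W.a₆ + D.r * φ W.a₄ + D.r ^ 2 * φ W.a₂
      + D.r ^ 3 - D.t * φ W.a₃ - D.t ^ 2 - D.r * D.t * φ W.a₁) := by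
    have h := congrArg WeierstrassCurve.a₆ hD
    rw [WeierstrassCurve.variableChange_a₆] at h
    exact h.symm
  have hb6 : φ W'.b₆ = ((D.u⁻¹ : Kˣ) : K) ^ 6 * (φ W.b₆ + 2 * D.r * φ W.b₄ + D.r ^ 2 * φ W.b₂
      + 4 * D.r ^ 3) := by
    have h := congrArg WeierstrassCurve.b₆ hD
    rw [WeierstrassCurve.variableChange_b₆, WeierstrassCurve.map_b₆, WeierstrassCurve.map_b₆,
      WeierstrassCurve.map_b₄, WeierstrassCurve.map_b₂] at h
    exact h.symm
  have hb8 : φ W'.b₈ = ((D.u⁻¹ : Kˣ) : K) ^ 8 * (φ W.b₈ + 3 * D.r * φ W.b₆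
      + 3 * D.r ^ 2 * φ W.b₄ + D.r ^ 3 * φ W.b₂ + 3 * D.r ^ 4) := by
    have h := congrArg WeierstrassCurve.b₈ hD
    rw [WeierstrassCurve.variableChange_b₈, WeierstrassCurve.map_b₈, WeierstrassCurve.map_b₈,
      WeierstrassCurve.map_b₆, WeierstrassCurve.map_b₄, WeierstrassCurve.map_b₂] at h
    exact h.symm
  have hun : ∀ n : ℕ, (D.u : K) ^ n * ((D.u⁻¹ : Kˣ) : K) ^ n = 1 := by
    intro n
    rw [← mul_pow, hui, one_pow]
  have hun2 : ∀ (n : ℕ) (a : K), (D.u : K) ^ n * (((D.u⁻¹ : Kˣ) : K) ^ n * a) = a := by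
    intro n a
    rw [← mul_assoc, hun, one_mul]
  have hb6' : (D.u : K) ^ 6 * φ W'.b₆ = φ W.b₆ + 2 * D.r * φ W.b₄ + D.r ^ 2 * φ W.b₂
      + 4 * D.r ^ 3 := by rw [hb6, hun2]
  have hb8' : (D.u : K) ^ 8 * φ W'.b₈ = φ W.b₈ + 3 * D.r * φ W.b₆
      + 3 * D.r ^ 2 * φ W.b₄ + D.r ^ 3 * φ W.b₂ + 3 * D.r ^ 4 := by rw [hb8, hun2]
  have ha2' : (D.u : K) ^ 2 * φ W'.a₂ = φ W.a₂ - D.s * φ W.a₁ + 3 * D.r - D.s ^ 2 := by
    rw [ha2, hun2]
  have ha6' : (D.u : K) ^ 6 * φ W'.a₆ = φ W.a₆ + D.r * φ W.a₄ + D.r ^ 2 * φ W.a₂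
      + D.r ^ 3 - D.t * φ W.a₃ - D.t ^ 2 - D.r * D.t * φ W.a₁ := by rw [ha6, hun2]
  -- integrality
  have hsub : ∀ {x y : K}, v.valuation K x ≤ 1 → v.valuation K y ≤ 1 →
      v.valuation K (x - y) ≤ 1 := fun {x y} hx hy =>
    ((v.valuation K).map_sub x y).trans (max_le hx hy)
  have hadd : ∀ {x y : K}, v.valuation K x ≤ 1 → v.valuation K y ≤ 1 →
      v.valuation K (x + y) ≤ 1 := fun {x y} hx hy =>
    ((v.valuation K).map_add x y).trans (max_le hx hy)
  have hmul : ∀ {x y : K}, v.valuation K x ≤ 1 → v.valuation K y ≤ 1 →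
      v.valuation K (x * y) ≤ 1 := fun {x y} hx hy => by
    rw [map_mul]; exact mul_le_one' hx hy
  have hpow : ∀ {x : K} (n : ℕ), v.valuation K x ≤ 1 → v.valuation K (x ^ n) ≤ 1 :=
    fun {x} n hx => by rw [map_pow]; exact pow_le_one' hx n
  have hneg : ∀ {x : K}, v.valuation K x ≤ 1 → v.valuation K (-x) ≤ 1 := fun {x} hx => by
    rwa [Valuation.map_neg]
  have hnat : ∀ n : ℕ, v.valuation K ((n : ℕ) : K) ≤ 1 := fun n => by
    have := hint (n : R)
    rwa [map_natCast] at this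
  have hr : v.valuation K D.r ≤ 1 := by
    refine val_quartic (v.valuation K) (a := φ W.b₄) (b := (D.u : K) ^ 6 * φ W'.b₆ + 2 * φ W.b₆)
      (c := φ W.b₈ - (D.u : K) ^ 8 * φ W'.b₈) (hint _) ?_ ?_ ?_
    · exact hadd (hmul (hpow _ huv.le) (hint _)) (hmul (by exact_mod_cast hnat 2) (hint _))
    · exact hsub (hint _) (hmul (hpow _ huv.le) (hint _))
    · rw [hb6', hb8']; ring
  have hs : v.valuation K D.s ≤ 1 := by
    refine val_quadratic (v.valuation K) (a := - φ W.a₁)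
      (b := φ W.a₂ + 3 * D.r - (D.u : K) ^ 2 * φ W'.a₂) (hneg (hint _)) ?_ ?_
    · exact hsub (hadd (hint _) (hmul (by exact_mod_cast hnat 3) hr))
        (hmul (hpow _ huv.le) (hint _))
    · rw [ha2']; ring
  have ht : v.valuation K D.t ≤ 1 := by
    refine val_quadratic (v.valuation K) (a := - (φ W.a₃ + D.r * φ W.a₁))
      (b := φ W.a₆ + D.r * φ W.a₄ + D.r ^ 2 * φ W.a₂ + D.r ^ 3 - (D.u : K) ^ 6 * φ W'.a₆)
      (hneg (hadd (hint _) (hmul hr (hint _)))) ?_ ?_
    · exact hsub (hadd (hadd (hadd (hint _) (hmul hr (hint _))) (hmul (hpow _ hr) (hint _)))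
        (hpow _ hr)) (hmul (hpow _ huv.le) (hint _))
    · rw [ha6']; ring
  -- the variable change over the localisation
  let B := Loc K v
  let uB : Bˣ :=
    { val := ⟨(D.u : K), mem_loc v huv.le⟩
      inv := ⟨((D.u⁻¹ : Kˣ) : K), mem_loc v hw.le⟩
      val_inv := Subtype.ext hui
      inv_val := Subtype.ext (by rw [mul_comm] at hui; exact hui) }
  let DB : WeierstrassCurve.VariableChange B :=
    ⟨uB, ⟨D.r, mem_loc v hr⟩, ⟨D.s, mem_loc v hs⟩, ⟨D.t, mem_loc v ht⟩⟩
  have hDB : DB.map (algebraMap B K) = D := by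
    ext <;> rfl
  have htower : (algebraMap B K).comp (algebraMap R B) = algebraMap R K :=
    (IsScalarTower.algebraMap_eq R B K).symm
  have hBB : DB • W.map (algebraMap R B) = W'.map (algebraMap R B) := by
    apply WeierstrassCurve.map_injective (f := algebraMap B K) (FaithfulSMul.algebraMap_injective B K)
    change (DB • W.map (algebraMap R B)).map (algebraMap B K) =
      (W'.map (algebraMap R B)).map (algebraMap B K)
    rw [← WeierstrassCurve.map_variableChange, hDB, WeierstrassCurve.map_map,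
      WeierstrassCurve.map_map, htower]
    exact hD
  refine ⟨DB.map (red v), ?_⟩
  have h := congrArg (fun X : WeierstrassCurve B => X.map (red v)) hBB
  simp only [← WeierstrassCurve.map_variableChange, WeierstrassCurve.map_map] at h
  rw [red_comp v] at h
  exact h

end dedekind

section numberfield

variable {K : Type} [Field K] [NumberField K]

/-- Two integral models of the same curve with unit discriminant at `p` have the same number of
affine points modulo `p`. -/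
theorem affPts_eq (E : WeierstrassCurve K) (W W' : WeierstrassCurve (𝓞 K))
    (p : HeightOneSpectrum (𝓞 K)) (hW : IsModel E W) (hW' : IsModel E W')
    (h : W.Δ ∉ p.asIdeal) (h' : W'.Δ ∉ p.asIdeal) : affPts W p = affPts W' p := by
  obtain ⟨C, hC⟩ := hW
  obtain ⟨C', hC'⟩ := hW'
  have hD : (C'⁻¹ * C) • W.map (algebraMap (𝓞 K) K) = W'.map (algebraMap (𝓞 K) K) := by
    rw [mul_smul, hC, ← hC', inv_smul_smul]
  obtain ⟨D, hD'⟩ := exists_change p W W' _ hD h h'
  unfold affPts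
  rw [← hD']
  exact (card_smul _ D).symm

omit [NumberField K] in
/-- A model which is minimal at `p` has unit discriminant if some model has. -/
theorem unit_of_minimal {E : WeierstrassCurve K} {W W' : WeierstrassCurve (𝓞 K)}
    {p : HeightOneSpectrum (𝓞 K)} (hW : IsMinimalAt E W p) (hW' : IsModel E W')
    (h' : W'.Δ ∉ p.asIdeal) : W.Δ ∉ p.asIdeal := by
  intro h
  have := hW.2 W' hW' 1 (by rwa [pow_one])
  rw [pow_one] at this
  exact h' this

/-- The Euler factor of a minimal model at a prime where some model has unit discriminant. -/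
theorem factor_eq {E : WeierstrassCurve K} {W W' : WeierstrassCurve (𝓞 K)}
    {p : HeightOneSpectrum (𝓞 K)} (hW : IsMinimalAt E W p) (hW' : IsModel E W')
    (h' : W'.Δ ∉ p.asIdeal) (s : ℂ) : factor W p s = factor W' p s := by
  have h := unit_of_minimal hW hW' h'
  unfold factor
  rw [affPts_eq E W W' p hW.1 hW' h h', if_neg h, if_neg h']

end numberfield

end Pool.Agent.MP_0d9be2.H29
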