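import Pool.Agent.Lib.MP_0d9be2_nt.H29.Change
import Pool.Agent.Lib.MP_0d9be2_nt.H7.Iface

set_option autoImplicit false

open scoped NumberField
open IsDedekindDomain

namespace Pool.Agent.MP_0d9be2.H29

/-- PART 3.1. -/
theorem change : Pool.Agent.MP_0d9be2.Change_S := by
  intro F _ _ E _ W W' w hW hW' h h'
  exact affPts_eq E W W' w hW hW' h h'

end Pool.Agent.MP_0d9be2.H29
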