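import Pool.Agent.Lib.MP_0d9be2_nt.H29.Field2

/-!
# Theorem S, part B: assembly
-/

set_option autoImplicit false

open scoped NumberField Pointwise
open IsDedekindDomain NumberField Polynomial

namespace Pool.Agent.MP_0d9be2.H29

open Pool.Agent.MP_0d9be2

section group

variable {K K₁ M : Type} [Field K] [NumberField K] [Field K₁] [NumberField K₁] [Field M]
  [NumberField M] [Algebra K K₁] [Algebra K M] [Algebra K₁ M] [IsScalarTower K K₁ M]
  [IsGalois K K₁] [IsGalois K M]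

omit [IsGalois K M] in
/-- An element not trivial on `K₁` has many conjugates. -/
theorem conj_count {l : ℕ} (hl : l.Prime) {ζ : 𝓞 K₁} (hζ : IsPrimitiveRoot ζ l) {r : ℕ}
    (α : Fin r → 𝓞 K₁) (b : Gal(K₁/K) × Fin r → 𝓞 M)
    (hb : ∀ i, b i ^ l = algebraMap (𝓞 K₁) (𝓞 M) (i.1 • α i.2)) (hb0 : ∀ i, b i ≠ 0)
    (n : Fin r → Gal(M/K₁)) (hn1 : ∀ i, n i • b (1, i) ≠ b (1, i))
    (hn2 : ∀ i t, t ≠ (1, i) → n i • b t = b t) (g : Gal(M/K)) (hg : g ∉ kerN K K₁ M) :
    l ^ r ≤ Nat.card {x : Gal(M/K) // ∃ n ∈ kerN K K₁ M, x = n * g * n⁻¹} := by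
  classical
  have hbM : ∀ t, (algebraMap (𝓞 M) M (b t)) ^ l = algebraMap (𝓞 K₁) M (t.1 • α t.2) := by
    intro t
    rw [← map_pow, hb, ← IsScalarTower.algebraMap_apply]
  have hbM0 : ∀ t, algebraMap (𝓞 M) M (b t) ≠ 0 := by
    intro t h0
    apply hb0 t
    exact (FaithfulSMul.algebraMap_eq_zero_iff (𝓞 M) M).1 h0
  set χ : Gal(K₁/K) × Fin r → (Gal(M/K₁) →* M) := fun t => chi hl hζ (hbM t) (hbM0 t) with hχ
  have hχ1 : ∀ t (m : Gal(M/K₁)), χ t m = 1 ↔
      m (algebraMap (𝓞 M) M (b t)) = algebraMap (𝓞 M) M (b t) := fun t m =>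
    chi_eq_one hl hζ (hbM t) (hbM0 t) m
  have hact : ∀ t (m : Gal(M/K₁)), m (algebraMap (𝓞 M) M (b t)) = algebraMap (𝓞 M) M (b t) ↔
      m • b t = b t := by
    intro t m
    constructor
    · intro h
      exact FaithfulSMul.algebraMap_injective (𝓞 M) M h
    · intro h
      exact congrArg (algebraMap (𝓞 M) M) h
  have hχn : ∀ i t, t ≠ (1, i) → χ t (n i) = 1 := by
    intro i t ht
    rw [hχ1, hact]
    exact hn2 i t ht
  have hξ : ∀ i, χ (1, i) (n i) ≠ 1 := by
    intro i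
    rw [Ne, hχ1, hact]
    exact hn1 i
  have hξl : ∀ i, χ (1, i) (n i) ^ l = 1 := fun i => chi_pow hl hζ _ _ _
  have hord : ∀ i, orderOf (χ (1, i) (n i)) = l := by
    intro i
    have : Fact l.Prime := ⟨hl⟩
    exact orderOf_eq_prime (hξl i) (hξ i)
  set e : (Fin r → Fin l) → Gal(M/K₁) := fun a => (List.ofFn fun i => n i ^ (a i : ℕ)).prod with he
  have hχe : ∀ t a, χ t (e a) = ∏ i, χ t (n i) ^ (a i : ℕ) := by
    intro t a
    rw [he]
    simp only [map_list_prod, List.map_ofFn, List.prod_ofFn, Function.comp_apply, map_pow]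
  have hF1 : ∀ (σ : Gal(K₁/K)) j a, σ ≠ 1 → χ (σ, j) (e a) = 1 := by
    intro σ j a hσ
    rw [hχe]
    refine Finset.prod_eq_one fun i _ => ?_
    rw [hχn i (σ, j) (fun h => hσ (congrArg Prod.fst h)), one_pow]
  have hF2 : ∀ j a, χ (1, j) (e a) = χ (1, j) (n j) ^ (a j : ℕ) := by
    intro j a
    rw [hχe]
    refine Finset.prod_eq_single j (fun i _ hi => ?_) (fun h => absurd (Finset.mem_univ j) h)
    rw [hχn i (1, j) (fun h => hi (congrArg Prod.snd h).symm), one_pow]
  let f : (Fin r → Fin l) → {x : Gal(M/K) // ∃ n ∈ kerN K K₁ M, x = n * g * n⁻¹} := fun a =>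
    ⟨(e a).restrictScalars K * g * ((e a).restrictScalars K)⁻¹, _, restrict_mem _, rfl⟩
  have hf : Function.Injective f := by
    intro a a' haa
    have h1 : (e a).restrictScalars K * g * ((e a).restrictScalars K)⁻¹ =
        (e a').restrictScalars K * g * ((e a').restrictScalars K)⁻¹ := congrArg Subtype.val haa
    obtain ⟨m, hm⟩ : ∃ m : Gal(M/K₁), e a = e a' * m := ⟨(e a')⁻¹ * e a, by group⟩
    have hmK : (e a).restrictScalars K = (e a').restrictScalars K * m.restrictScalars K := by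
      rw [hm]
      rfl
    have hcomm : m.restrictScalars K * g = g * m.restrictScalars K := by
      rw [hmK] at h1
      have h2 : m.restrictScalars K * g * (m.restrictScalars K)⁻¹ = g := by
        have h3 := congrArg (fun z => ((e a').restrictScalars K)⁻¹ * z * (e a').restrictScalars K) h1
        simp only [mul_inv_rev] at h3
        group at h3
        have h4 : (AlgEquiv.restrictScalars K m) * g * (AlgEquiv.restrictScalars K m)⁻¹ = g := by
          rw [← zpow_neg_one]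
          exact h3
        exact h4
      calc m.restrictScalars K * g = m.restrictScalars K * g * (m.restrictScalars K)⁻¹ *
            m.restrictScalars K := by group
        _ = g * m.restrictScalars K := by rw [h2]
    have hcomm' : ∀ x : M, m (g x) = g (m x) := fun x => AlgEquiv.congr_fun hcomm x
    set q : Gal(K₁/K) := g.restrictNormal K₁ with hq
    have hq1 : q ≠ 1 := by
      intro h
      apply hg
      exact h
    funext j
    have hmb : χ (1, j) m = 1 := by
      rw [hχ1]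
      set y : M := algebraMap (𝓞 M) M (b (1, j)) with hy
      set t : Gal(K₁/K) × Fin r := (q⁻¹, j) with ht
      have hyl : y ^ l = algebraMap (𝓞 K₁) M (α j) := by
        have h2 := hbM (1, j)
        rw [one_smul] at h2
        exact h2
      have h2 : (g⁻¹ y) ^ l = (algebraMap (𝓞 M) M (b t)) ^ l := by
        rw [← map_pow, hyl, hbM t]
        apply g.injective
        have h3 : g (g⁻¹ (algebraMap (𝓞 K₁) M (α j))) = algebraMap (𝓞 K₁) M (α j) := by
          rw [← AlgEquiv.mul_apply, mul_inv_cancel, AlgEquiv.one_apply]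
        rw [h3, IsScalarTower.algebraMap_apply (𝓞 K₁) K₁ M,
          IsScalarTower.algebraMap_apply (𝓞 K₁) K₁ M]
        have h4 := AlgEquiv.restrictNormal_commutes g K₁ (algebraMap (𝓞 K₁) K₁ (t.1 • α t.2))
        rw [← h4]
        congr 1
        change algebraMap (𝓞 K₁) K₁ (α j) = q (q⁻¹ (algebraMap (𝓞 K₁) K₁ (α j)))
        rw [← AlgEquiv.mul_apply, mul_inv_cancel, AlgEquiv.one_apply]
      have hζM : IsPrimitiveRoot (algebraMap (𝓞 K₁) M ζ) l :=
        hζ.map_of_injective (FaithfulSMul.algebraMap_injective (𝓞 K₁) M)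
      obtain ⟨k, hk⟩ := H7.B4.root_of_pow_eq hl hζM h2
      have hmt : m (algebraMap (𝓞 M) M (b t)) = algebraMap (𝓞 M) M (b t) := by
        rw [← hχ1]
        have h3 : χ t (e a) = χ t (e a') * χ t m := by rw [hm, map_mul]
        have hq1' : q⁻¹ ≠ 1 := by rwa [Ne, inv_eq_one]
        rw [ht, hF1 _ _ _ hq1', hF1 _ _ _ hq1', one_mul] at h3
        exact h3.symm
      have hmβ : m (g⁻¹ y) = g⁻¹ y := by
        rw [hk, map_mul, gal_fix, hmt]
      have h5 : g (g⁻¹ y) = y := by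
        rw [← AlgEquiv.mul_apply, mul_inv_cancel, AlgEquiv.one_apply]
      calc m y = m (g (g⁻¹ y)) := by rw [h5]
        _ = g (m (g⁻¹ y)) := hcomm' _
        _ = y := by rw [hmβ, h5]
    have h6 : χ (1, j) (e a) = χ (1, j) (e a') := by
      rw [hm, map_mul, hmb, mul_one]
    rw [hF2, hF2] at h6
    apply Fin.ext
    have h7 := pow_injOn_Iio_orderOf (x := χ (1, j) (n j))
    rw [hord j] at h7
    exact h7 (a j).2 (a' j).2 h6
  have hcard := Nat.card_le_card_of_injective f hf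
  rwa [Nat.card_eq_fintype_card, Fintype.card_fun, Fintype.card_fin, Fintype.card_fin] at hcard

omit [IsGalois K K₁] [IsGalois K M] [NumberField K] [NumberField K₁] [NumberField M] in
theorem smul_restrict (g : Gal(M/K₁)) (I : Ideal (𝓞 M)) :
    (g.restrictScalars K) • I = g • I := by
  ext x
  rw [Ideal.mem_pointwise_smul_iff_inv_smul_mem, Ideal.mem_pointwise_smul_iff_inv_smul_mem]
  rfl

omit [IsGalois K M] in
/-- The bound for the decomposition groups. -/
theorem stab_le {B : ℕ} (W : HeightOneSpectrum (𝓞 M))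
    (hW : Nat.card (MulAction.stabilizer Gal(M/K₁) W.asIdeal) ≤ B) :
    Nat.card (MulAction.stabilizer Gal(M/K) W.asIdeal) ≤ B * Module.finrank K K₁ := by
  classical
  set φ : MulAction.stabilizer Gal(M/K) W.asIdeal →* Gal(K₁/K) :=
    (AlgEquiv.restrictNormalHom (F := K) (K₁ := M) K₁).comp
      (MulAction.stabilizer Gal(M/K) W.asIdeal).subtype with hφ
  have h1 : Nat.card (MulAction.stabilizer Gal(M/K) W.asIdeal) =
      Nat.card φ.range * Nat.card φ.ker := by
    rw [Subgroup.card_eq_card_quotient_mul_card_subgroup φ.ker,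
      Nat.card_congr (QuotientGroup.quotientKerEquivRange φ).toEquiv]
  have h2 : Nat.card φ.range ≤ Module.finrank K K₁ := by
    rw [← IsGalois.card_aut_eq_finrank]
    exact Subgroup.card_le_card_group φ.range
  have h3 : Nat.card φ.ker ≤ B := by
    refine le_trans ?_ hW
    have hlift : ∀ x : φ.ker, ∃ g' : Gal(M/K₁), g'.restrictScalars K = ((x : _) : Gal(M/K)) := by
      intro x
      apply exists_lift
      rw [← mem_kerN (K := K)]
      exact x.2
    choose g' hg' using hlift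
    have hstab : ∀ x : φ.ker, g' x ∈ MulAction.stabilizer Gal(M/K₁) W.asIdeal := by
      intro x
      rw [MulAction.mem_stabilizer_iff, ← smul_restrict (K := K), hg' x]
      exact x.1.2
    refine Nat.card_le_card_of_injective (fun x => (⟨g' x, hstab x⟩ :
      MulAction.stabilizer Gal(M/K₁) W.asIdeal)) ?_
    intro x y hxy
    have h4 : g' x = g' y := congrArg Subtype.val hxy
    apply Subtype.ext
    apply Subtype.ext
    rw [← hg' x, ← hg' y, h4]
  rw [h1, mul_comm]
  exact Nat.mul_le_mul h3 h2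

end group

/-- The fields, when `K₁` contains the `l`-th roots of unity. -/
theorem core (hE : Elements_S) (hI : Inert_S) {K K₁ : Type} [Field K] [NumberField K] [Field K₁]
    [NumberField K₁] [Algebra K K₁] [IsGalois K K₁] {l : ℕ} (hl : l.Prime) (ζ : 𝓞 K₁)
    (hζ : IsPrimitiveRoot ζ l) (hdeg : ¬ l ∣ Module.finrank K K₁) (r : ℕ) :
    ∃ (M : Type) (_ : Field M) (_ : NumberField M) (_ : Algebra K M) (_ : Algebra K₁ M)
      (_ : IsScalarTower K K₁ M) (_ : IsGalois K M) (N : Subgroup Gal(M/K)),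
      N.Normal ∧ (∀ g ∈ N, ∀ x : K₁, g (algebraMap K₁ M x) = algebraMap K₁ M x) ∧
      (∀ a ∈ N, ∀ b ∈ N, a * b = b * a) ∧ (∀ a ∈ N, a ^ l = 1) ∧ ¬ l ∣ N.index ∧
      (∀ g : Gal(M/K), g ∉ N →
        l ^ r ≤ Nat.card {x : Gal(M/K) // ∃ n ∈ N, x = n * g * n⁻¹}) ∧
      ∀ W : HeightOneSpectrum (𝓞 M),
        Nat.card (MulAction.stabilizer Gal(M/K) W.asIdeal) ≤ l ^ 2 * Module.finrank K K₁ := by
  obtain ⟨P, α, hP1, hP2, hP3, hP4⟩ := hE K K₁ l hl r
  obtain ⟨M, iF, iN, iK, iM, iT, hgal, b, hb, hfaith⟩ := exists_kummer (K := K) hl ζ hζ α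
  have hζM : IsPrimitiveRoot (algebraMap (𝓞 K₁) (𝓞 M) ζ) l :=
    hζ.map_of_injective (FaithfulSMul.algebraMap_injective (𝓞 K₁) (𝓞 M))
  have hα0 : ∀ i, α i ≠ 0 := by
    intro i h0
    apply (hP2 i).2
    rw [h0]
    exact Ideal.zero_mem _
  have hb0 : ∀ t, b t ≠ 0 := by
    intro t h0
    have h1 := hb t
    rw [h0, zero_pow hl.ne_zero] at h1
    have h2 : t.1 • α t.2 = 0 := (FaithfulSMul.algebraMap_eq_zero_iff (𝓞 K₁) (𝓞 M)).1 h1.symm
    rw [smul_eq_zero_iff_eq] at h2
    exact hα0 _ h2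
  have hgalM : IsGalois K₁ M := IsGalois.tower_top_of_isGalois K K₁ M
  have hn : ∀ i : Fin r, ∃ n : Gal(M/K₁), n • b (1, i) ≠ b (1, i) ∧
      ∀ t, t ≠ (1, i) → n • b t = b t := by
    intro i
    refine hI K₁ M l hl ζ hζ (Gal(K₁/K) × Fin r) b (fun t => t.1 • α t.2) hb hfaith (P i) (1, i)
      (hP1 i) ?_ ?_ ?_
    · rw [one_smul]
      exact (hP2 i).1
    · rw [one_smul]
      exact (hP2 i).2
    · rintro ⟨σ, j⟩ hσ
      refine hP3 i j σ ?_
      rintro ⟨h1, h2⟩
      exact hσ (by rw [h1, h2])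
  choose n hn1 hn2 using hn
  refine ⟨M, iF, iN, iK, iM, iT, hgal, kerN K K₁ M, inferInstance, ?_, ?_, ?_, ?_, ?_, ?_⟩
  · intro g hg
    exact (mem_kerN g).1 hg
  · intro a ha d hd
    exact kerN_comm hl hζ b _ hb hfaith a d ha hd
  · intro a ha
    exact kerN_pow hl hζ b _ hb hfaith a ha
  · rw [index_kerN]
    exact hdeg
  · intro g hg
    exact conj_count hl hζ α b hb hb0 n hn1 hn2 g hg
  · intro W
    refine stab_le W ?_
    have hfin : Finite (𝓞 M ⧸ W.asIdeal) := Ideal.finiteQuotientOfFreeOfNeBot W.asIdeal W.ne_bot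
    refine H7.B4.card_stab_le (A := 𝓞 K₁) hl hζM ?_ b (fun t => t.1 • α t.2) hb hb0 ?_ hfaith W
    · exact_mod_cast hl.ne_zero
    · rintro ⟨σ, j⟩
      obtain ⟨d, hd⟩ := hP4 j
      refine ⟨σ • d, ?_⟩
      simp only []
      rw [hd, smul_add, smul_one, smul_mul', smul_pow']
      congr 3
      exact map_natCast (MulSemiringAction.toRingHom Gal(K₁/K) (𝓞 K₁) σ) l

/-- PART B. -/
theorem field (hE : Elements_S) (hI : Inert_S) : Field_S := by
  intro K K₁ _ _ _ _ _ _
  obtain ⟨l, hlt, hl⟩ := Nat.exists_infinite_primes (Module.finrank K K₁ + 1)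
  obtain ⟨K₂, iF, iN, iK, iM, iT, hgal, hdeg, z, hz⟩ :=
    cyclo_step (K := K) (K₁ := K₁) hl (by omega)
  have hzint : IsIntegral ℤ z := by
    refine IsIntegral.of_pow hl.pos ?_
    rw [hz.pow_eq_one]
    exact isIntegral_one
  obtain ⟨ζ, hζz⟩ := (IsIntegralClosure.isIntegral_iff (A := 𝓞 K₂) (R := ℤ)).1 hzint
  have hζ : IsPrimitiveRoot ζ l := by
    rw [← hζz] at hz
    exact hz.of_map_of_injective (FaithfulSMul.algebraMap_injective (𝓞 K₂) K₂)
  refine ⟨l, l ^ 2 * Module.finrank K K₂, hl, fun r => ?_⟩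
  obtain ⟨M, jF, jN, jK, jM, jT, hgalM, N, h1, h2, h3⟩ := core hE hI hl ζ hζ hdeg r
  let jK₁ : Algebra K₁ M := ((algebraMap K₂ M).comp (algebraMap K₁ K₂)).toAlgebra
  have hT : IsScalarTower K₁ K₂ M := IsScalarTower.of_algebraMap_eq fun x => rfl
  have hT' : IsScalarTower K K₁ M := by
    refine IsScalarTower.of_algebraMap_eq fun x => ?_
    rw [IsScalarTower.algebraMap_apply K K₂ M, IsScalarTower.algebraMap_apply K K₁ K₂]
    rfl
  refine ⟨M, jF, jN, jK, jK₁, hT', hgalM, N, h1, fun g hg x => ?_, h3⟩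
  exact h2 g hg (algebraMap K₁ K₂ x)

end Pool.Agent.MP_0d9be2.H29
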