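import Pool.Agent.Lib.MP_0d9be2_nt.Defs3
import Pool.Agent.Lib.MP_0d9be2_nt.H7.B4

/-!
# Theorem S, part B: splitting fields over a Galois extension, adjoining a root of unity
-/

set_option autoImplicit false

open scoped NumberField Pointwise
open IsDedekindDomain NumberField Polynomial

namespace Pool.Agent.MP_0d9be2.H29

open Pool.Agent.MP_0d9be2

/-- The splitting field over `M` of a polynomial over `K`, `M/K` Galois. -/
theorem exists_splitting {K M : Type} [Field K] [NumberField K] [Field M] [NumberField M]
    [Algebra K M] [IsGalois K M] (P : K[X]) (hP : P ≠ 0) :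
    ∃ (N : Type) (_ : Field N) (_ : NumberField N) (_ : Algebra K N) (_ : Algebra M N)
      (_ : IsScalarTower K M N) (_ : IsGalois K N), IsSplittingField M N (P.map (algebraMap K M)) := by
  classical
  let N : Type := (P.map (algebraMap K M)).SplittingField
  let iF : Field N := inferInstanceAs (Field (P.map (algebraMap K M)).SplittingField)
  let iM : Algebra M N := inferInstanceAs (Algebra M (P.map (algebraMap K M)).SplittingField)
  let iK : Algebra K N := inferInstanceAs (Algebra K (P.map (algebraMap K M)).SplittingField)
  have iT : IsScalarTower K M N :=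
    inferInstanceAs (IsScalarTower K M (P.map (algebraMap K M)).SplittingField)
  have hsp : IsSplittingField M N (P.map (algebraMap K M)) :=
    inferInstanceAs (IsSplittingField M (P.map (algebraMap K M)).SplittingField
      (P.map (algebraMap K M)))
  have hfd : FiniteDimensional M N := IsSplittingField.finiteDimensional N (P.map (algebraMap K M))
  have hchar : CharZero N := charZero_of_injective_algebraMap (algebraMap M N).injective
  have hfdKM : FiniteDimensional K M := inferInstance
  have hfdK : FiniteDimensional K N := FiniteDimensional.trans K M N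
  have hfdQ : FiniteDimensional ℚ N := FiniteDimensional.trans ℚ M N
  have iN : NumberField N := { to_charZero := hchar, to_finiteDimensional := hfdQ }
  obtain ⟨g, hg⟩ := Normal.exists_isSplittingField K M
  have hgal : IsGalois K N := by
    by_cases hgz : g = 0
    · subst hgz
      have hnorm : IsSplittingField K M (1 : K[X]) := by
        refine ⟨by simp, ?_⟩
        have h1 := hg.adjoin_rootSet
        simpa using h1
      have h2 : IsSplittingField K N ((1 : K[X]) * P) :=
        IsSplittingField.mul (K := M) N 1 P one_ne_zero hP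
      have h3 : Normal K N := Normal.of_isSplittingField ((1 : K[X]) * P)
      exact { to_isSeparable := inferInstance, to_normal := h3 }
    · have h2 : IsSplittingField K N (g * P) := IsSplittingField.mul (K := M) N g P hgz hP
      have h3 : Normal K N := Normal.of_isSplittingField (g * P)
      exact { to_isSeparable := inferInstance, to_normal := h3 }
  exact ⟨N, iF, iN, iK, iM, iT, hgal, hsp⟩

/-- Adjoining the `l`-th roots of unity, `l` a prime larger than the degree. -/
theorem cyclo_step {K K₁ : Type} [Field K] [NumberField K] [Field K₁] [NumberField K₁]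
    [Algebra K K₁] [IsGalois K K₁] {l : ℕ} (hl : l.Prime) (hlt : Module.finrank K K₁ < l) :
    ∃ (K₂ : Type) (_ : Field K₂) (_ : NumberField K₂) (_ : Algebra K K₂) (_ : Algebra K₁ K₂)
      (_ : IsScalarTower K K₁ K₂) (_ : IsGalois K K₂), ¬ l ∣ Module.finrank K K₂ ∧
      ∃ ζ : K₂, IsPrimitiveRoot ζ l := by
  classical
  obtain ⟨N, iF, iN, iK, iM, iT, hgal, hsp⟩ :=
    exists_splitting (K := K) (M := K₁) (cyclotomic l K) (cyclotomic_ne_zero l K)
  rw [map_cyclotomic] at hsp
  have hNZ : NeZero (l : N) := ⟨by exact_mod_cast hl.ne_zero⟩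
  have hs := hsp.splits
  rw [map_cyclotomic] at hs
  obtain ⟨ζ, hζ⟩ := hs.exists_eval_eq_zero (by
    rw [degree_cyclotomic]
    exact_mod_cast (Nat.totient_pos.2 hl.pos).ne')
  have hζ' : IsPrimitiveRoot ζ l := isRoot_cyclotomic_iff.1 hζ
  refine ⟨N, iF, iN, iK, iM, iT, hgal, ?_, ζ, hζ'⟩
  have htop : IntermediateField.adjoin K₁ {ζ} = ⊤ := by
    rw [eq_top_iff]
    have h1 := hsp.adjoin_rootSet
    have h2 : Algebra.adjoin K₁ ((cyclotomic l K₁).rootSet N) ≤
        (IntermediateField.adjoin K₁ {ζ}).toSubalgebra := by
      rw [Algebra.adjoin_le_iff]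
      intro x hx
      rw [mem_rootSet] at hx
      have h3 : x ^ l = 1 := by
        have h4 : IsRoot (cyclotomic l N) x := by
          rw [IsRoot.def, ← map_cyclotomic l (algebraMap K₁ N), eval_map_algebraMap]
          exact hx.2
        exact (isRoot_cyclotomic_iff.1 h4).pow_eq_one
      have : NeZero l := ⟨hl.ne_zero⟩
      obtain ⟨k, -, hk⟩ := hζ'.eq_pow_of_pow_eq_one h3
      rw [← hk]
      exact pow_mem (IntermediateField.mem_adjoin_simple_self K₁ ζ) k
    rw [h1] at h2
    intro x _
    exact h2 trivial
  have hdeg : Module.finrank K₁ N ≤ l - 1 := by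
    rw [← Nat.totient_prime hl, ← natDegree_cyclotomic l K₁]
    rw [← IntermediateField.finrank_top', ← htop,
      IntermediateField.adjoin.finrank (Algebra.IsIntegral.isIntegral ζ)]
    refine natDegree_le_of_dvd (minpoly.dvd K₁ ζ ?_) (cyclotomic_ne_zero l K₁)
    rw [← eval_map_algebraMap, map_cyclotomic]
    exact hζ
  have h0 : 0 < Module.finrank K₁ N := Module.finrank_pos
  have h0' : 0 < Module.finrank K K₁ := Module.finrank_pos
  rw [← Module.finrank_mul_finrank K K₁ N]
  intro hdvd
  rcases (Nat.Prime.dvd_mul hl).1 hdvd with h | h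
  · exact absurd (Nat.le_of_dvd h0' h) (by omega)
  · exact absurd (Nat.le_of_dvd h0 h) (by have := hl.pos; omega)

end Pool.Agent.MP_0d9be2.H29
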