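import Pool.Agent.Lib.MP_0d9be2_nt.H29.Field0

/-!
# Theorem S, part B: the Kummer extensions
-/

set_option autoImplicit false

open scoped NumberField Pointwise
open IsDedekindDomain NumberField Polynomial

namespace Pool.Agent.MP_0d9be2.H29

open Pool.Agent.MP_0d9be2

section kummer

variable {K K₁ : Type} [Field K] [NumberField K] [Field K₁] [NumberField K₁]
    [Algebra K K₁] [IsGalois K K₁]

theorem gal_fix {K₁ M : Type} [Field K₁] [NumberField K₁] [Field M] [NumberField M]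
    [Algebra K₁ M] (g : Gal(M/K₁)) (x : 𝓞 K₁) :
    g (algebraMap (𝓞 K₁) M x) = algebraMap (𝓞 K₁) M x := by
  rw [IsScalarTower.algebraMap_apply (𝓞 K₁) K₁ M]
  exact g.commutes _

/-- The Kummer extension generated by the `l`-th roots of the conjugates of the `α i`. -/
theorem exists_kummer {l : ℕ} (hl : l.Prime) (ζ : 𝓞 K₁) (hζ : IsPrimitiveRoot ζ l) {r : ℕ}
    (α : Fin r → 𝓞 K₁) :
    ∃ (M : Type) (_ : Field M) (_ : NumberField M) (_ : Algebra K M) (_ : Algebra K₁ M)
      (_ : IsScalarTower K K₁ M) (_ : IsGalois K M) (b : Gal(K₁/K) × Fin r → 𝓞 M),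
      (∀ i, b i ^ l = algebraMap (𝓞 K₁) (𝓞 M) (i.1 • α i.2)) ∧
      (∀ g : Gal(M/K₁), (∀ i, g • b i = b i) → g = 1) := by
  classical
  set P : K[X] := ∏ i : Fin r, expand K l (minpoly K (algebraMap (𝓞 K₁) K₁ (α i))) with hPdef
  have hint : ∀ i : Fin r, IsIntegral K (algebraMap (𝓞 K₁) K₁ (α i)) :=
    fun i => Algebra.IsIntegral.isIntegral _
  have hP : P ≠ 0 := by
    rw [hPdef, Finset.prod_ne_zero_iff]
    intro i _
    rw [Ne, expand_eq_zero hl.pos]
    exact minpoly.ne_zero (hint i)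
  obtain ⟨M, iF, iN, iK, iM, iT, hgal, hsp⟩ := exists_splitting (K := K) (M := K₁) P hP
  have hPM : (P.map (algebraMap K M)).Splits := by
    have h1 := hsp.splits
    rwa [Polynomial.map_map, ← IsScalarTower.algebraMap_eq K K₁ M] at h1
  have hPM0 : P.map (algebraMap K M) ≠ 0 := by
    rwa [Ne, Polynomial.map_eq_zero]
  have hroot : ∀ i : Gal(K₁/K) × Fin r, ∃ b : 𝓞 M,
      b ^ l = algebraMap (𝓞 K₁) (𝓞 M) (i.1 • α i.2) := by
    rintro ⟨σ, i⟩
    set a : M := algebraMap (𝓞 M) M (algebraMap (𝓞 K₁) (𝓞 M) (σ • α i)) with ha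
    have ha' : a = algebraMap K₁ M (σ (algebraMap (𝓞 K₁) K₁ (α i))) := by
      rw [ha, ← IsScalarTower.algebraMap_apply, IsScalarTower.algebraMap_apply (𝓞 K₁) K₁ M]
      congr 1
    have h1 : (X - C a) ∣ (minpoly K (algebraMap (𝓞 K₁) K₁ (α i))).map (algebraMap K M) := by
      rw [dvd_iff_isRoot, IsRoot.def, eval_map_algebraMap, ha', aeval_algebraMap_apply]
      have h2 := aeval_algHom_apply (σ : K₁ →ₐ[K] K₁) (algebraMap (𝓞 K₁) K₁ (α i))
        (minpoly K (algebraMap (𝓞 K₁) K₁ (α i)))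
      rw [minpoly.aeval, map_zero] at h2
      have h3 : ((σ : K₁ →ₐ[K] K₁) (algebraMap (𝓞 K₁) K₁ (α i))) =
        σ (algebraMap (𝓞 K₁) K₁ (α i)) := rfl
      rw [h3] at h2
      rw [h2, map_zero]
    have h2 : (expand M l (X - C a)) ∣ P.map (algebraMap K M) := by
      have h3 : expand M l (X - C a) ∣
          expand M l ((minpoly K (algebraMap (𝓞 K₁) K₁ (α i))).map (algebraMap K M)) := by
        obtain ⟨q, hq⟩ := h1
        exact ⟨expand M l q, by rw [hq, map_mul]⟩
      refine h3.trans ?_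
      rw [← map_expand, hPdef, Polynomial.map_prod]
      exact Finset.dvd_prod_of_mem _ (Finset.mem_univ i)
    have h4 : (expand M l (X - C a)).Splits := hPM.of_dvd hPM0 h2
    have h5 : (expand M l (X - C a)).degree ≠ 0 := by
      rw [map_sub, expand_X, expand_C, degree_X_pow_sub_C hl.pos]
      exact_mod_cast hl.ne_zero
    obtain ⟨y, hy⟩ := h4.exists_eval_eq_zero h5
    rw [map_sub, expand_X, expand_C, eval_sub, eval_pow, eval_X, eval_C, sub_eq_zero] at hy
    have hyint : IsIntegral ℤ y := by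
      refine IsIntegral.of_pow hl.pos ?_
      rw [hy]
      exact RingOfIntegers.isIntegral_coe _
    obtain ⟨y', hy'⟩ := (IsIntegralClosure.isIntegral_iff (A := 𝓞 M) (R := ℤ)).1 hyint
    refine ⟨y', ?_⟩
    apply FaithfulSMul.algebraMap_injective (𝓞 M) M
    rw [map_pow, hy']
    exact hy
  choose b hb using hroot
  refine ⟨M, iF, iN, iK, iM, iT, hgal, b, hb, ?_⟩
  intro g hg
  have hfix : ∀ β ∈ (P.map (algebraMap K K₁)).rootSet M, g β = β := by
    intro β hβ
    rw [mem_rootSet] at hβ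
    have h1 := hβ.2
    rw [aeval_map_algebraMap, hPdef, map_prod, Finset.prod_eq_zero_iff] at h1
    obtain ⟨i, -, hi⟩ := h1
    rw [expand_aeval] at hi
    have h2 : IsConjRoot K (algebraMap K₁ M (algebraMap (𝓞 K₁) K₁ (α i))) (β ^ l) := by
      rw [IsConjRoot, minpoly.algebraMap_eq (algebraMap K₁ M).injective]
      exact minpoly.eq_of_irreducible_of_monic (minpoly.irreducible (hint i)) hi
        (minpoly.monic (hint i))
    obtain ⟨τ, hτ⟩ := isConjRoot_iff_exists_algEquiv.1 h2.symm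
    have h3 : β ^ l = algebraMap (𝓞 M) M (b (τ.restrictNormal K₁, i)) ^ l := by
      rw [← hτ, ← map_pow, hb, ← IsScalarTower.algebraMap_apply,
        IsScalarTower.algebraMap_apply (𝓞 K₁) K₁ M, ← AlgEquiv.restrictNormal_commutes]
      congr 1
    have hζM : IsPrimitiveRoot (algebraMap (𝓞 K₁) M ζ) l :=
      hζ.map_of_injective (FaithfulSMul.algebraMap_injective (𝓞 K₁) M)
    obtain ⟨k, hk⟩ := H7.B4.root_of_pow_eq hl hζM h3
    rw [hk, map_mul, gal_fix]
    congr 1
    have h4 := congrArg (algebraMap (𝓞 M) M) (hg (τ.restrictNormal K₁, i))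
    exact h4
  have h1 : Algebra.adjoin K₁ ((P.map (algebraMap K K₁)).rootSet M) ≤
      AlgHom.equalizer (g : M →ₐ[K₁] M) (AlgHom.id K₁ M) := by
    rw [Algebra.adjoin_le_iff]
    intro β hβ
    exact hfix β hβ
  rw [hsp.adjoin_rootSet] at h1
  apply AlgEquiv.ext
  intro x
  exact h1 (Algebra.mem_top (x := x))

end kummer

end Pool.Agent.MP_0d9be2.H29
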