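import Pool.Agent.Lib.MP_0d9be2_nt.H29.Field1

/-!
# Theorem S, part B: the group theory of the Kummer extensions
-/

set_option autoImplicit false

open scoped NumberField Pointwise
open IsDedekindDomain NumberField Polynomial

namespace Pool.Agent.MP_0d9be2.H29

open Pool.Agent.MP_0d9be2

instance smulComm {K₁ M : Type} [Field K₁] [NumberField K₁] [Field M] [NumberField M]
    [Algebra K₁ M] : SMulCommClass Gal(M/K₁) (𝓞 K₁) (𝓞 M) where
  smul_comm g a x := by
    apply FaithfulSMul.algebraMap_injective (𝓞 M) M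
    rw [Algebra.smul_def, Algebra.smul_def, map_mul, ← IsScalarTower.algebraMap_apply]
    change g (algebraMap (𝓞 M) M (algebraMap (𝓞 K₁) (𝓞 M) a * x)) =
      algebraMap (𝓞 K₁) M a * g (algebraMap (𝓞 M) M x)
    rw [map_mul, ← IsScalarTower.algebraMap_apply, map_mul, gal_fix]

section chi

variable {K₁ M : Type} [Field K₁] [NumberField K₁] [Field M] [NumberField M] [Algebra K₁ M]
  {l : ℕ} (hl : l.Prime) {ζ : 𝓞 K₁} (hζ : IsPrimitiveRoot ζ l)

include hl hζ in
/-- Every element acts on a root by a root of unity of `K₁`. -/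
theorem exists_char' {β : M} {c : 𝓞 K₁} (hβ : β ^ l = algebraMap (𝓞 K₁) M c) (g : Gal(M/K₁)) :
    ∃ k : ℕ, g β = algebraMap (𝓞 K₁) M (ζ ^ k) * β := by
  have hζM : IsPrimitiveRoot (algebraMap (𝓞 K₁) M ζ) l :=
    hζ.map_of_injective (FaithfulSMul.algebraMap_injective (𝓞 K₁) M)
  have h1 : (g β) ^ l = β ^ l := by rw [← map_pow, hβ, gal_fix]
  exact H7.B4.root_of_pow_eq hl hζM h1

/-- The character of a root. -/
noncomputable def chi {β : M} {c : 𝓞 K₁} (hβ : β ^ l = algebraMap (𝓞 K₁) M c) (hβ0 : β ≠ 0) :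
    Gal(M/K₁) →* M where
  toFun g := g β / β
  map_one' := by
    rw [AlgEquiv.one_apply, div_self hβ0]
  map_mul' g h := by
    obtain ⟨k, hk⟩ := exists_char' hl hζ hβ h
    obtain ⟨k', hk'⟩ := exists_char' hl hζ hβ g
    rw [AlgEquiv.mul_apply, hk, map_mul, gal_fix, hk']
    field_simp

theorem chi_apply {β : M} {c : 𝓞 K₁} (hβ : β ^ l = algebraMap (𝓞 K₁) M c) (hβ0 : β ≠ 0)
    (g : Gal(M/K₁)) : chi hl hζ hβ hβ0 g = g β / β := rfl

theorem chi_eq_one {β : M} {c : 𝓞 K₁} (hβ : β ^ l = algebraMap (𝓞 K₁) M c) (hβ0 : β ≠ 0)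
    (g : Gal(M/K₁)) : chi hl hζ hβ hβ0 g = 1 ↔ g β = β := by
  rw [chi_apply, div_eq_one_iff_eq hβ0]

theorem chi_pow {β : M} {c : 𝓞 K₁} (hβ : β ^ l = algebraMap (𝓞 K₁) M c) (hβ0 : β ≠ 0)
    (g : Gal(M/K₁)) : chi hl hζ hβ hβ0 g ^ l = 1 := by
  rw [chi_apply, div_pow, ← map_pow, hβ, gal_fix, div_self]
  rw [← hβ]
  exact pow_ne_zero _ hβ0

end chi

section group

variable {K K₁ M : Type} [Field K] [NumberField K] [Field K₁] [NumberField K₁] [Field M]
  [NumberField M] [Algebra K K₁] [Algebra K M] [Algebra K₁ M] [IsScalarTower K K₁ M]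
  [IsGalois K K₁] [IsGalois K M]

/-- The elements of `Gal(M/K)` trivial on `K₁`. -/
noncomputable def kerN (K K₁ M : Type) [Field K] [NumberField K] [Field K₁] [NumberField K₁]
    [Field M] [NumberField M] [Algebra K K₁] [Algebra K M] [Algebra K₁ M] [IsScalarTower K K₁ M]
    [IsGalois K K₁] : Subgroup Gal(M/K) :=
  (AlgEquiv.restrictNormalHom (F := K) (K₁ := M) K₁).ker

omit [IsGalois K M] in
theorem mem_kerN (g : Gal(M/K)) :
    g ∈ kerN K K₁ M ↔ ∀ x : K₁, g (algebraMap K₁ M x) = algebraMap K₁ M x := by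
  rw [kerN, MonoidHom.mem_ker]
  constructor
  · intro h x
    have h1 := AlgEquiv.restrictNormal_commutes g K₁ x
    have h2 : g.restrictNormal K₁ = 1 := h
    rw [h2, AlgEquiv.one_apply] at h1
    exact h1.symm
  · intro h
    apply AlgEquiv.ext
    intro x
    apply (algebraMap K₁ M).injective
    have h1 := AlgEquiv.restrictNormal_commutes g K₁ x
    rw [h x] at h1
    exact h1

instance : (kerN K K₁ M).Normal := MonoidHom.normal_ker _

theorem index_kerN : (kerN K K₁ M).index = Module.finrank K K₁ := by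
  rw [kerN, Subgroup.index_ker, MonoidHom.range_eq_top.2
    (AlgEquiv.restrictNormalHom_surjective (F := K) (K₁ := K₁) M), Subgroup.card_top,
    IsGalois.card_aut_eq_finrank]

omit [IsGalois K K₁] [IsGalois K M] [NumberField K] [NumberField K₁] [NumberField M] in
/-- An element trivial on `K₁` comes from `Gal(M/K₁)`. -/
theorem exists_lift (g : Gal(M/K)) (hg : ∀ x : K₁, g (algebraMap K₁ M x) = algebraMap K₁ M x) :
    ∃ g' : Gal(M/K₁), g'.restrictScalars K = g := by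
  refine ⟨AlgEquiv.ofRingEquiv (f := g.toRingEquiv) hg, ?_⟩
  apply AlgEquiv.ext
  intro x
  rfl

omit [IsGalois K M] in
theorem restrict_mem (g : Gal(M/K₁)) : g.restrictScalars K ∈ kerN K K₁ M := by
  rw [mem_kerN]
  intro x
  exact g.commutes x

variable {l : ℕ} (hl : l.Prime) {ζ : 𝓞 K₁} (hζ : IsPrimitiveRoot ζ l) {ι : Type}
  (b : ι → 𝓞 M) (c : ι → 𝓞 K₁) (hb : ∀ i, b i ^ l = algebraMap (𝓞 K₁) (𝓞 M) (c i))
  (hfaith : ∀ g : Gal(M/K₁), (∀ i, g • b i = b i) → g = 1)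

include hl hζ hb hfaith in
omit [IsGalois K M] in
theorem kerN_comm (a d : Gal(M/K)) (ha : a ∈ kerN K K₁ M) (hd : d ∈ kerN K K₁ M) :
    a * d = d * a := by
  rw [mem_kerN] at ha hd
  obtain ⟨a, rfl⟩ := exists_lift a ha
  obtain ⟨d, rfl⟩ := exists_lift d hd
  have hbM : ∀ i, (algebraMap (𝓞 M) M (b i)) ^ l = algebraMap (𝓞 K₁) M (c i) := by
    intro i
    rw [← map_pow, hb, ← IsScalarTower.algebraMap_apply]
  have h1 : (d * a)⁻¹ * (a * d) = 1 := by
    apply hfaith
    intro i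
    rw [mul_smul, inv_smul_eq_iff]
    apply FaithfulSMul.algebraMap_injective (𝓞 M) M
    change a (d (algebraMap (𝓞 M) M (b i))) = d (a (algebraMap (𝓞 M) M (b i)))
    obtain ⟨k, hk⟩ := exists_char' hl hζ (hbM i) a
    obtain ⟨k', hk'⟩ := exists_char' hl hζ (hbM i) d
    rw [hk, hk', map_mul, map_mul, gal_fix, gal_fix, hk, hk']
    ring
  rw [inv_mul_eq_one] at h1
  apply AlgEquiv.ext
  intro x
  have h2 := AlgEquiv.congr_fun h1 x
  exact h2.symm

include hl hζ hb hfaith in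
omit [IsGalois K M] in
theorem kerN_pow (a : Gal(M/K)) (ha : a ∈ kerN K K₁ M) : a ^ l = 1 := by
  rw [mem_kerN] at ha
  obtain ⟨a, rfl⟩ := exists_lift a ha
  have hζM : IsPrimitiveRoot (algebraMap (𝓞 K₁) (𝓞 M) ζ) l :=
    hζ.map_of_injective (FaithfulSMul.algebraMap_injective (𝓞 K₁) (𝓞 M))
  have h1 := H7.B4.pow_eq_one hl hζM b c hb hfaith a
  have h2 : (AlgEquiv.restrictScalars K a) ^ l = AlgEquiv.restrictScalars K (a ^ l) :=
    (map_pow (AlgEquiv.restrictScalarsHom K) a l).symm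
  rw [h2, h1]
  rfl

end group

end Pool.Agent.MP_0d9be2.H29
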