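import Pool.Agent.Lib.MP_0d9be2_nt.H7.Model

/-!
# Potential semistability of elliptic curves over number fields (Legendre and Deuring forms)
-/

set_option autoImplicit false

open scoped NumberField
open IsDedekindDomain

namespace Pool.Agent.MP_0d9be2.H29

open Pool.Agent.MP_0d9be2

section defs

variable {K : Type} [Field K] [NumberField K]

/-- `E` has good or multiplicative reduction at `p`: it has an integral model whose discriminant
or whose `c₄` is a unit at `p`. -/
def SemistableAt (E : WeierstrassCurve K) (p : HeightOneSpectrum (𝓞 K)) : Prop :=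
  ∃ W : WeierstrassCurve (𝓞 K), IsModel E W ∧ (W.Δ ∉ p.asIdeal ∨ W.c₄ ∉ p.asIdeal)

/-- A model with coefficients integral at `p` and `Δ` or `c₄` a unit at `p` is enough. -/
theorem semi_of_val (E : WeierstrassCurve K) (p : HeightOneSpectrum (𝓞 K))
    (C : WeierstrassCurve.VariableChange K)
    (h₁ : p.valuation K (C • E).a₁ ≤ 1) (h₂ : p.valuation K (C • E).a₂ ≤ 1)
    (h₃ : p.valuation K (C • E).a₃ ≤ 1) (h₄ : p.valuation K (C • E).a₄ ≤ 1)
    (h₆ : p.valuation K (C • E).a₆ ≤ 1)
    (h : p.valuation K (C • E).Δ = 1 ∨ p.valuation K (C • E).c₄ = 1) : SemistableAt E p := by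
  obtain ⟨n₁, d₁, e₁⟩ := p.exists_primeCompl_mul_eq_of_integer _ h₁
  obtain ⟨n₂, d₂, e₂⟩ := p.exists_primeCompl_mul_eq_of_integer _ h₂
  obtain ⟨n₃, d₃, e₃⟩ := p.exists_primeCompl_mul_eq_of_integer _ h₃
  obtain ⟨n₄, d₄, e₄⟩ := p.exists_primeCompl_mul_eq_of_integer _ h₄
  obtain ⟨n₆, d₆, e₆⟩ := p.exists_primeCompl_mul_eq_of_integer _ h₆
  have hprod : ((d₁ * d₂ * d₃ * d₄ * d₆ : p.asIdeal.primeCompl) : 𝓞 K) ∉ p.asIdeal :=
    (d₁ * d₂ * d₃ * d₄ * d₆).2
  obtain ⟨t, ht⟩ : ∃ t : 𝓞 K, t = ((d₁ * d₂ * d₃ * d₄ * d₆ : p.asIdeal.primeCompl) : 𝓞 K) :=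
    ⟨_, rfl⟩
  rw [← ht] at hprod
  have ht' : t = d₁ * d₂ * d₃ * d₄ * d₆ := by rw [ht]; simp
  have ht0 : t ≠ 0 := fun h0 => hprod (h0 ▸ p.asIdeal.zero_mem)
  have htK : algebraMap (𝓞 K) K t ≠ 0 := by
    rw [Ne, FaithfulSMul.algebraMap_eq_zero_iff]
    exact ht0
  have hv : p.valuation K (algebraMap (𝓞 K) K t) = 1 :=
    (HeightOneSpectrum.valuation_eq_one_iff_notMem p).2 hprod
  have htv : algebraMap (𝓞 K) K t = algebraMap (𝓞 K) K d₁ * algebraMap (𝓞 K) K d₂ *
      algebraMap (𝓞 K) K d₃ * algebraMap (𝓞 K) K d₄ * algebraMap (𝓞 K) K d₆ := by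
    rw [ht']
    simp only [map_mul]
  obtain ⟨W, hW⟩ : ∃ W : WeierstrassCurve (𝓞 K), W.map (algebraMap (𝓞 K) K) =
      (⟨(Units.mk0 _ htK)⁻¹, 0, 0, 0⟩ : WeierstrassCurve.VariableChange K) • (C • E) := by
    refine ⟨⟨n₁ * (d₂ * d₃ * d₄ * d₆), n₂ * (d₁ * d₃ * d₄ * d₆) * t, n₃ * (d₁ * d₂ * d₄ * d₆) * t ^ 2,
      n₄ * (d₁ * d₂ * d₃ * d₆) * t ^ 3, n₆ * (d₁ * d₂ * d₃ * d₄) * t ^ 5⟩, ?_⟩
    ext
    · simp only [WeierstrassCurve.map, map_mul, map_pow, ← e₁, WeierstrassCurve.variableChange_a₁,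
        inv_inv, Units.val_mk0, htv]
      ring
    · simp only [WeierstrassCurve.map, map_mul, map_pow, ← e₂, WeierstrassCurve.variableChange_a₂,
        inv_inv, Units.val_mk0, htv]
      ring
    · simp only [WeierstrassCurve.map, map_mul, map_pow, ← e₃, WeierstrassCurve.variableChange_a₃,
        inv_inv, Units.val_mk0, htv]
      ring
    · simp only [WeierstrassCurve.map, map_mul, map_pow, ← e₄, WeierstrassCurve.variableChange_a₄,
        inv_inv, Units.val_mk0, htv]
      ring
    · simp only [WeierstrassCurve.map, map_mul, map_pow, ← e₆, WeierstrassCurve.variableChange_a₆,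
        inv_inv, Units.val_mk0, htv]
      ring
  refine ⟨W, H7.isModel_of_smul (_ * C) (by rw [hW, smul_smul]), ?_⟩
  rcases h with h | h
  · left
    rw [← HeightOneSpectrum.valuation_eq_one_iff_notMem (K := K), ← WeierstrassCurve.map_Δ, hW,
      WeierstrassCurve.variableChange_Δ, map_mul, h]
    simp only [inv_inv, Units.val_mk0, map_pow, hv, one_pow, mul_one]
  · right
    rw [← HeightOneSpectrum.valuation_eq_one_iff_notMem (K := K), ← WeierstrassCurve.map_c₄, hW,
      WeierstrassCurve.variableChange_c₄, map_mul, h]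
    simp only [inv_inv, Units.val_mk0, map_pow, hv, one_pow, mul_one]

omit [NumberField K] in
/-- Semistability goes up. -/
theorem semi_up {F : Type} [Field F] [NumberField F] [Algebra K F] (E : WeierstrassCurve K)
    (v : HeightOneSpectrum (𝓞 K)) (w : HeightOneSpectrum (𝓞 F))
    (hw : w.asIdeal.LiesOver v.asIdeal) (h : SemistableAt E v) :
    SemistableAt (E.map (algebraMap K F)) w := by
  obtain ⟨W, ⟨C, hC⟩, hW⟩ := h
  have hmem : ∀ x : 𝓞 K, algebraMap (𝓞 K) (𝓞 F) x ∈ w.asIdeal ↔ x ∈ v.asIdeal := by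
    intro x
    rw [hw.over, Ideal.under_def, Ideal.mem_comap]
  refine ⟨W.map (algebraMap (𝓞 K) (𝓞 F)), ⟨C.map (algebraMap K F), ?_⟩, ?_⟩
  · rw [← hC, ← WeierstrassCurve.map_variableChange, WeierstrassCurve.map_map,
      WeierstrassCurve.map_map, ← IsScalarTower.algebraMap_eq, ← IsScalarTower.algebraMap_eq]
  · rw [WeierstrassCurve.map_Δ, WeierstrassCurve.map_c₄, hmem, hmem]
    exact hW

omit [NumberField K] in
/-- A curve isomorphic to a semistable curve is semistable. -/
theorem semi_smul {E E' : WeierstrassCurve K} (C : WeierstrassCurve.VariableChange K)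
    (p : HeightOneSpectrum (𝓞 K)) (hC : C • E = E') (h : SemistableAt E' p) : SemistableAt E p := by
  obtain ⟨W, ⟨D, hD⟩, hW⟩ := h
  refine ⟨W, ⟨C⁻¹ * D, ?_⟩, hW⟩
  rw [mul_smul, hD, ← hC, inv_smul_smul]

end defs

section normalforms

variable {k : Type} [Field k] [IsAlgClosed k] [CharZero k]

/-- The Legendre form. -/
theorem exists_legendre (E : WeierstrassCurve k) [E.IsElliptic] :
    ∃ (C : WeierstrassCurve.VariableChange k) (l : k), l ≠ 0 ∧
      C • E = ⟨0, -(1 + l), 0, l, 0⟩ := by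
  have h2 : (2 : k) ≠ 0 := two_ne_zero
  obtain ⟨e, he⟩ : ∃ e : k, 4 * e ^ 3 + E.b₂ * e ^ 2 + 2 * E.b₄ * e + E.b₆ = 0 := by
    obtain ⟨e, he⟩ := IsAlgClosed.exists_root
      (Cubic.toPoly ⟨4, E.b₂, 2 * E.b₄, E.b₆⟩) (by
        rw [Cubic.degree_of_a_ne_zero (by norm_num)]; norm_num)
    refine ⟨e, ?_⟩
    rw [Polynomial.IsRoot.def, Cubic.toPoly] at he
    simpa using he
  obtain ⟨A, B, C₁, hC₁⟩ : ∃ (A B : k) (C₁ : WeierstrassCurve.VariableChange k),
      C₁ • E = ⟨0, A, 0, B, 0⟩ := by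
    refine ⟨E.b₂ / 4 + 3 * e, E.b₄ / 2 + e * E.b₂ / 2 + 3 * e ^ 2,
      ⟨1, e, -E.a₁ / 2, -(E.a₃ + e * E.a₁) / 2⟩, ?_⟩
    rw [WeierstrassCurve.b₂, WeierstrassCurve.b₄, WeierstrassCurve.b₆] at he
    ext
    · simp only [WeierstrassCurve.variableChange_a₁, inv_one, Units.val_one]
      ring
    · simp only [WeierstrassCurve.variableChange_a₂, inv_one, Units.val_one, WeierstrassCurve.b₂]
      ring
    · simp only [WeierstrassCurve.variableChange_a₃, inv_one, Units.val_one]
      ring
    · simp only [WeierstrassCurve.variableChange_a₄, inv_one, Units.val_one, WeierstrassCurve.b₂,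
        WeierstrassCurve.b₄]
      ring
    · simp only [WeierstrassCurve.variableChange_a₆, inv_one, Units.val_one]
      linear_combination he / 4
  have hell : (C₁ • E).IsElliptic := inferInstance
  have hB : B ≠ 0 := by
    intro h0
    have h1 := hell.isUnit.ne_zero
    apply h1
    rw [hC₁, h0]
    simp [WeierstrassCurve.Δ, WeierstrassCurve.b₂, WeierstrassCurve.b₄, WeierstrassCurve.b₆,
      WeierstrassCurve.b₈]
  obtain ⟨α, hα⟩ : ∃ α : k, α ^ 2 + A * α + B = 0 := by
    obtain ⟨e, he⟩ := IsAlgClosed.exists_root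
      (Cubic.toPoly ⟨0, 1, A, B⟩) (by
        rw [Cubic.degree_of_b_ne_zero rfl (by norm_num)]; norm_num)
    refine ⟨e, ?_⟩
    rw [Polynomial.IsRoot.def, Cubic.toPoly] at he
    simpa using he
  have hα0 : α ≠ 0 := by
    rintro rfl
    apply hB
    simpa using hα
  obtain ⟨u, hu⟩ := IsAlgClosed.exists_pow_nat_eq α (n := 2) (by norm_num)
  have hu0 : u ≠ 0 := by
    rintro rfl
    apply hα0
    rw [← hu]
    norm_num
  have hl0 : (-A - α) / α ≠ 0 := by
    intro h0
    have h3 : -A - α = 0 := by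
      rcases div_eq_zero_iff.1 h0 with h | h
      · exact h
      · exact absurd h hα0
    apply hB
    linear_combination hα + α * h3
  refine ⟨⟨Units.mk0 u hu0, 0, 0, 0⟩ * C₁, (-A - α) / α, hl0, ?_⟩
  rw [mul_smul, hC₁]
  ext
  · simp only [WeierstrassCurve.variableChange_a₁]
    ring
  · simp only [WeierstrassCurve.variableChange_a₂, Units.val_inv_eq_inv_val, Units.val_mk0]
    rw [inv_pow, hu]
    field_simp
    ring
  · simp only [WeierstrassCurve.variableChange_a₃]
    ring
  · simp only [WeierstrassCurve.variableChange_a₄, Units.val_inv_eq_inv_val, Units.val_mk0]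
    have hu4 : u⁻¹ ^ 4 = (α ^ 2)⁻¹ := by
      rw [← hu, inv_pow]
      ring
    rw [hu4]
    field_simp
    linear_combination hα
  · simp only [WeierstrassCurve.variableChange_a₆]
    ring

/-- The Deuring form. -/
theorem exists_deuring (E : WeierstrassCurve k) [E.IsElliptic] :
    ∃ (C : WeierstrassCurve.VariableChange k) (a : k), C • E = ⟨a, 0, 1, 0, 0⟩ := by
  obtain ⟨x, hx⟩ : ∃ x : k,
      3 * x ^ 4 + E.b₂ * x ^ 3 + 3 * E.b₄ * x ^ 2 + 3 * E.b₆ * x + E.b₈ = 0 := by
    have hd : (Polynomial.C (3 : k) * Polynomial.X ^ 4 + Cubic.toPoly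
        ⟨E.b₂, 3 * E.b₄, 3 * E.b₆, E.b₈⟩).degree = 4 := by
      rw [Polynomial.degree_add_eq_left_of_degree_lt]
      · rw [Polynomial.degree_C_mul_X_pow _ (by norm_num)]
        rfl
      · rw [Polynomial.degree_C_mul_X_pow _ (by norm_num)]
        exact Polynomial.degree_cubic_lt
    obtain ⟨e, he⟩ := IsAlgClosed.exists_root _ (by rw [hd]; norm_num)
    refine ⟨e, ?_⟩
    rw [Polynomial.IsRoot.def, Cubic.toPoly] at he
    simp only [Polynomial.eval_add, Polynomial.eval_mul, Polynomial.eval_C, Polynomial.eval_pow,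
      Polynomial.eval_X] at he
    linear_combination he
  obtain ⟨y, hy⟩ : ∃ y : k, y ^ 2 + E.a₁ * x * y + E.a₃ * y
      - (x ^ 3 + E.a₂ * x ^ 2 + E.a₄ * x + E.a₆) = 0 := by
    obtain ⟨e, he⟩ := IsAlgClosed.exists_root
      (Cubic.toPoly ⟨0, 1, E.a₁ * x + E.a₃, -(x ^ 3 + E.a₂ * x ^ 2 + E.a₄ * x + E.a₆)⟩) (by
        rw [Cubic.degree_of_b_ne_zero rfl (by norm_num)]; norm_num)
    refine ⟨e, ?_⟩
    rw [Polynomial.IsRoot.def, Cubic.toPoly] at he
    simp only [Polynomial.eval_add, Polynomial.eval_mul, Polynomial.eval_C, Polynomial.eval_pow,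
      Polynomial.eval_X] at he
    linear_combination he
  obtain ⟨C₁, hC₁⟩ : ∃ C₁ : WeierstrassCurve.VariableChange k, C₁ = ⟨1, x, 0, y⟩ := ⟨_, rfl⟩
  have hell : (C₁ • E).IsElliptic := inferInstance
  have hΔ := hell.isUnit.ne_zero
  obtain ⟨E₁, hE₁⟩ : ∃ E₁ : WeierstrassCurve k, E₁ = C₁ • E := ⟨_, rfl⟩
  have h6 : E₁.a₆ = 0 := by
    rw [hE₁, hC₁]
    simp only [WeierstrassCurve.variableChange_a₆, inv_one, Units.val_one]
    linear_combination -hy
  have h8 : E₁.b₈ = 0 := by
    rw [hE₁, hC₁]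
    simp only [WeierstrassCurve.variableChange_b₈, inv_one, Units.val_one]
    linear_combination hx
  rw [← hE₁] at hΔ
  have h3 : E₁.a₃ ≠ 0 := by
    intro h3
    apply hΔ
    have h4 : E₁.a₄ = 0 := by
      rw [WeierstrassCurve.b₈, h3, h6] at h8
      have : E₁.a₄ ^ 2 = 0 := by linear_combination -h8
      exact pow_eq_zero_iff (two_ne_zero) |>.1 this
    rw [WeierstrassCurve.Δ, h8, WeierstrassCurve.b₄, WeierstrassCurve.b₆, h3, h4, h6]
    ring
  obtain ⟨E₂, hE₂⟩ : ∃ E₂ : WeierstrassCurve k,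
      E₂ = (⟨1, 0, E₁.a₄ / E₁.a₃, 0⟩ : WeierstrassCurve.VariableChange k) • E₁ := ⟨_, rfl⟩
  have g6 : E₂.a₆ = 0 := by
    rw [hE₂]
    simp only [WeierstrassCurve.variableChange_a₆, h6]
    ring
  have g3 : E₂.a₃ = E₁.a₃ := by
    rw [hE₂]
    simp only [WeierstrassCurve.variableChange_a₃, inv_one, Units.val_one]
    ring
  have g4 : E₂.a₄ = 0 := by
    rw [hE₂]
    simp only [WeierstrassCurve.variableChange_a₄, inv_one, Units.val_one]
    field_simp
    ring
  have g8 : E₂.b₈ = 0 := by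
    rw [hE₂]
    simp only [WeierstrassCurve.variableChange_b₈, inv_one, Units.val_one, h8]
    ring
  have g2 : E₂.a₂ = 0 := by
    rw [WeierstrassCurve.b₈, g4, g6, g3] at g8
    have : E₂.a₂ * E₁.a₃ ^ 2 = 0 := by linear_combination g8
    rcases mul_eq_zero.1 this with h | h
    · exact h
    · exact absurd (pow_eq_zero_iff (two_ne_zero) |>.1 h) h3
  obtain ⟨u, hu⟩ := IsAlgClosed.exists_pow_nat_eq E₁.a₃ (n := 3) (by norm_num)
  have hu0 : u ≠ 0 := by
    rintro rfl
    apply h3
    rw [← hu]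
    norm_num
  refine ⟨⟨Units.mk0 u hu0, 0, 0, 0⟩ * ⟨1, 0, E₁.a₄ / E₁.a₃, 0⟩ * C₁, u⁻¹ * E₂.a₁, ?_⟩
  rw [mul_smul, ← hE₁, mul_smul, ← hE₂]
  ext
  · simp only [WeierstrassCurve.variableChange_a₁, Units.val_inv_eq_inv_val, Units.val_mk0]
    ring
  · simp only [WeierstrassCurve.variableChange_a₂, g2]
    ring
  · simp only [WeierstrassCurve.variableChange_a₃, Units.val_inv_eq_inv_val, Units.val_mk0, g3]
    rw [inv_pow, hu]
    field_simp
    ring
  · simp only [WeierstrassCurve.variableChange_a₄, g2, g4, g3]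
    ring
  · simp only [WeierstrassCurve.variableChange_a₆, g6, g2, g4, g3]
    ring

end normalforms

section localcase

variable {K : Type} [Field K] [NumberField K]

theorem valuation_two {p : HeightOneSpectrum (𝓞 K)} (hp : (2 : 𝓞 K) ∉ p.asIdeal) :
    p.valuation K (2 : K) = 1 := by
  have h := (HeightOneSpectrum.valuation_eq_one_iff_notMem (K := K) p).2 hp
  rwa [map_ofNat] at h

theorem valuation_three {p : HeightOneSpectrum (𝓞 K)} (hp : (3 : 𝓞 K) ∉ p.asIdeal) :
    p.valuation K (3 : K) = 1 := by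
  have h := (HeightOneSpectrum.valuation_eq_one_iff_notMem (K := K) p).2 hp
  rwa [map_ofNat] at h

theorem valuation_nat_le (p : HeightOneSpectrum (𝓞 K)) (n : ℕ) : p.valuation K (n : K) ≤ 1 := by
  have h1 : algebraMap (𝓞 K) K (n : 𝓞 K) = (n : K) := map_natCast (algebraMap (𝓞 K) K) n
  rw [← h1]
  exact p.valuation_le_one (K := K) (n : 𝓞 K)

/-- The Legendre curve. -/
def leg (l : K) : WeierstrassCurve K := ⟨0, -(1 + l), 0, l, 0⟩

/-- The Deuring curve. -/
def deu (a : K) : WeierstrassCurve K := ⟨a, 0, 1, 0, 0⟩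

theorem leg_int (l : K) (p : HeightOneSpectrum (𝓞 K)) (hp : (2 : 𝓞 K) ∉ p.asIdeal)
    (hl : p.valuation K l ≤ 1) : SemistableAt (leg l) p := by
  have h2 := valuation_two hp
  have h1l : p.valuation K (1 + l) ≤ 1 := (p.valuation K).map_add_le (by simp) hl
  have hl1 : p.valuation K (l - 1) ≤ 1 := (p.valuation K).map_sub_le hl (by simp)
  refine semi_of_val (leg l) p 1 ?_ ?_ ?_ ?_ ?_ ?_
  · rw [one_smul]; simp [leg]
  · rw [one_smul]; simpa only [leg, Valuation.map_neg] using h1l
  · rw [one_smul]; simp [leg]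
  · rw [one_smul]; simpa [leg] using hl
  · rw [one_smul]; simp [leg]
  · rw [one_smul]
    have hΔ : (leg l).Δ = 2 ^ 4 * (l * (l - 1)) ^ 2 := by
      rw [WeierstrassCurve.Δ, WeierstrassCurve.b₂, WeierstrassCurve.b₄, WeierstrassCurve.b₆,
        WeierstrassCurve.b₈, leg]
      ring
    have hc : (leg l).c₄ = 2 ^ 4 * (1 + l * (l - 1)) := by
      rw [WeierstrassCurve.c₄, WeierstrassCurve.b₂, WeierstrassCurve.b₄, leg]
      ring
    have hm : p.valuation K (l * (l - 1)) ≤ 1 := by
      rw [map_mul]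
      exact mul_le_one' hl hl1
    rcases lt_or_eq_of_le hm with h | h
    · right
      rw [hc, map_mul, map_pow, h2, (p.valuation K).map_one_add_of_lt h]
      simp
    · left
      rw [hΔ, map_mul, map_pow, map_pow, h2, h]
      simp

theorem leg_semi (l m : K) (hm : m ^ 2 = l) (p : HeightOneSpectrum (𝓞 K))
    (hp : (2 : 𝓞 K) ∉ p.asIdeal) : SemistableAt (leg l) p := by
  rcases le_or_gt (p.valuation K l) 1 with hl | hl
  · exact leg_int l p hp hl
  · have hl0 : l ≠ 0 := by
      rintro rfl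
      simp at hl
    have hm0 : m ≠ 0 := by
      rintro rfl
      apply hl0
      rw [← hm]
      simp
    have hli : p.valuation K l⁻¹ ≤ 1 := by
      rw [map_inv₀]
      exact inv_le_one_of_one_le₀ hl.le
    refine semi_smul (⟨Units.mk0 m hm0, 0, 0, 0⟩ : WeierstrassCurve.VariableChange K) p ?_
      (leg_int l⁻¹ p hp hli)
    rw [leg, leg]
    ext
    · simp only [WeierstrassCurve.variableChange_a₁]
      ring
    · simp only [WeierstrassCurve.variableChange_a₂, Units.val_inv_eq_inv_val, Units.val_mk0]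
      rw [inv_pow, hm]
      field_simp
      ring
    · simp only [WeierstrassCurve.variableChange_a₃]
      ring
    · simp only [WeierstrassCurve.variableChange_a₄, Units.val_inv_eq_inv_val, Units.val_mk0]
      have hu4 : m⁻¹ ^ 4 = (l ^ 2)⁻¹ := by
        rw [← hm, inv_pow]
        ring
      rw [hu4]
      field_simp
      ring
    · simp only [WeierstrassCurve.variableChange_a₆]
      ring

theorem deu_semi (a : K) (p : HeightOneSpectrum (𝓞 K)) (hp : (3 : 𝓞 K) ∉ p.asIdeal) :
    SemistableAt (deu a) p := by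
  have h3 := valuation_three hp
  rcases le_or_gt (p.valuation K a) 1 with ha | ha
  · refine semi_of_val (deu a) p 1 ?_ ?_ ?_ ?_ ?_ ?_
    · rw [one_smul]; simpa [deu] using ha
    · rw [one_smul]; simp [deu]
    · rw [one_smul]; simp [deu]
    · rw [one_smul]; simp [deu]
    · rw [one_smul]; simp [deu]
    · rw [one_smul]
      have hΔ : (deu a).Δ = a ^ 3 - 3 ^ 3 := by
        rw [WeierstrassCurve.Δ, WeierstrassCurve.b₂, WeierstrassCurve.b₄, WeierstrassCurve.b₆,
          WeierstrassCurve.b₈, deu]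
        ring
      have hc : (deu a).c₄ = a * ((a ^ 3 - 3 ^ 3) + 3) := by
        rw [WeierstrassCurve.c₄, WeierstrassCurve.b₂, WeierstrassCurve.b₄, deu]
        ring
      have hd : p.valuation K (a ^ 3 - 3 ^ 3) ≤ 1 := by
        refine (p.valuation K).map_sub_le ?_ ?_
        · rw [map_pow]
          exact pow_le_one' ha 3
        · rw [map_pow, h3]
          simp
      rcases lt_or_eq_of_le hd with h | h
      · right
        have hv : p.valuation K (a ^ 3) = 1 := by
          have h5 : a ^ 3 = (a ^ 3 - 3 ^ 3) + 3 ^ 3 := by ring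
          rw [h5, Valuation.map_add_eq_of_lt_right, map_pow, h3, one_pow]
          rwa [map_pow, h3, one_pow]
        have hva : p.valuation K a = 1 := by
          rw [map_pow] at hv
          exact (pow_eq_one_iff_of_nonneg zero_le (by norm_num)).1 hv
        rw [hc, map_mul, hva, one_mul, Valuation.map_add_eq_of_lt_right, h3]
        rw [h3]
        exact h
      · left
        rw [hΔ, h]
  · have ha0 : a ≠ 0 := by
      rintro rfl
      simp at ha
    have hai : p.valuation K a⁻¹ < 1 := by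
      rw [map_inv₀]
      exact inv_lt_one_of_one_lt₀ ha
    have hE : (⟨Units.mk0 a ha0, 0, 0, 0⟩ : WeierstrassCurve.VariableChange K) • deu a =
        ⟨1, 0, a⁻¹ ^ 3, 0, 0⟩ := by
      rw [deu]
      ext
      · simp only [WeierstrassCurve.variableChange_a₁, Units.val_inv_eq_inv_val, Units.val_mk0]
        field_simp
        ring
      · simp only [WeierstrassCurve.variableChange_a₂]
        ring
      · simp only [WeierstrassCurve.variableChange_a₃, Units.val_inv_eq_inv_val, Units.val_mk0]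
        ring
      · simp only [WeierstrassCurve.variableChange_a₄]
        ring
      · simp only [WeierstrassCurve.variableChange_a₆]
        ring
    refine semi_of_val (deu a) p ⟨Units.mk0 a ha0, 0, 0, 0⟩ ?_ ?_ ?_ ?_ ?_ ?_
    · rw [hE]; simp
    · rw [hE]; simp
    · rw [hE, map_pow]
      exact pow_le_one' hai.le 3
    · rw [hE]; simp
    · rw [hE]; simp
    · right
      rw [hE]
      have hc : (⟨1, 0, a⁻¹ ^ 3, 0, 0⟩ : WeierstrassCurve K).c₄ = 1 + -(((24 : ℕ) : K) * a⁻¹ ^ 3) := by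
        rw [WeierstrassCurve.c₄, WeierstrassCurve.b₂, WeierstrassCurve.b₄]
        push_cast
        ring
      rw [hc]
      refine (p.valuation K).map_one_add_of_lt ?_
      rw [Valuation.map_neg, map_mul, map_pow]
      calc p.valuation K ((24 : ℕ) : K) * (p.valuation K) a⁻¹ ^ 3
          ≤ 1 * (p.valuation K) a⁻¹ ^ 3 := by
            gcongr
            exact valuation_nat_le p 24
        _ = (p.valuation K) a⁻¹ ^ 3 := one_mul _
        _ < 1 := pow_lt_one' hai (by norm_num)

end localcase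

section global

variable {K : Type} [Field K] [NumberField K]

omit [NumberField K] in
/-- Descent of a normal form from the algebraic closure to a subfield. -/
theorem descend (E : WeierstrassCurve K) (M : IntermediateField K (AlgebraicClosure K))
    (C : WeierstrassCurve.VariableChange (AlgebraicClosure K))
    (hu : (C.u : AlgebraicClosure K) ∈ M) (hr : C.r ∈ M) (hs : C.s ∈ M) (ht : C.t ∈ M)
    (W : WeierstrassCurve M)
    (h : C • E.map (algebraMap K (AlgebraicClosure K)) =
      W.map (algebraMap M (AlgebraicClosure K))) :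
    ∃ D : WeierstrassCurve.VariableChange M, D • E.map (algebraMap K M) = W := by
  have hu0 : (⟨(C.u : AlgebraicClosure K), hu⟩ : M) ≠ 0 := by
    intro h0
    exact C.u.ne_zero (congrArg Subtype.val h0)
  refine ⟨⟨Units.mk0 ⟨(C.u : AlgebraicClosure K), hu⟩ hu0, ⟨C.r, hr⟩, ⟨C.s, hs⟩, ⟨C.t, ht⟩⟩, ?_⟩
  apply WeierstrassCurve.map_injective (f := algebraMap M (AlgebraicClosure K))
    (algebraMap M (AlgebraicClosure K)).injective
  simp only []
  rw [← WeierstrassCurve.map_variableChange, WeierstrassCurve.map_map,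
    ← IsScalarTower.algebraMap_eq, ← h]
  congr 1
  ext <;> rfl

/-- POTENTIAL SEMISTABILITY: over some finite Galois extension `M` of `K` the curve `E` is
semistable at every prime. -/
theorem potential (E : WeierstrassCurve K) [E.IsElliptic] :
    ∃ (M : IntermediateField K (AlgebraicClosure K)) (_ : NumberField M),
      FiniteDimensional K M ∧ IsGalois K M ∧
      ∀ w : HeightOneSpectrum (𝓞 M), SemistableAt (E.map (algebraMap K M)) w := by
  classical
  obtain ⟨C, l, hl, hC⟩ := exists_legendre (E.map (algebraMap K (AlgebraicClosure K)))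
  obtain ⟨D, a, hD⟩ := exists_deuring (E.map (algebraMap K (AlgebraicClosure K)))
  obtain ⟨m, hm⟩ := IsAlgClosed.exists_pow_nat_eq l (n := 2) (by norm_num)
  let T : Finset (AlgebraicClosure K) :=
    {(C.u : AlgebraicClosure K), C.r, C.s, C.t, l, m, (D.u : AlgebraicClosure K), D.r, D.s, D.t, a}
  let M₀ : IntermediateField K (AlgebraicClosure K) := IntermediateField.adjoin K (T : Set _)
  have hM₀ : FiniteDimensional K M₀ := by
    have : Finite (T : Set (AlgebraicClosure K)) := T.finite_toSet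
    exact IntermediateField.finiteDimensional_adjoin
      fun x _ => (Algebra.IsAlgebraic.isAlgebraic x).isIntegral
  let M : IntermediateField K (AlgebraicClosure K) :=
    IntermediateField.normalClosure K M₀ (AlgebraicClosure K)
  have hfd : FiniteDimensional K M := normalClosure.is_finiteDimensional K M₀ (AlgebraicClosure K)
  have hnorm : Normal K M := normalClosure.normal K M₀ (AlgebraicClosure K)
  have hgal : IsGalois K M := { to_isSeparable := inferInstance, to_normal := hnorm }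
  have hNF : NumberField M := NumberField.of_module_finite K M
  have hT : ∀ x ∈ T, x ∈ M := fun x hx =>
    IntermediateField.le_normalClosure M₀ (IntermediateField.subset_adjoin K _ hx)
  have hmem : ∀ x ∈ ({(C.u : AlgebraicClosure K), C.r, C.s, C.t, l, m,
      (D.u : AlgebraicClosure K), D.r, D.s, D.t, a} : Finset (AlgebraicClosure K)), x ∈ M := hT
  simp only [Finset.mem_insert, Finset.mem_singleton, forall_eq_or_imp, forall_eq] at hmem
  obtain ⟨m1, m2, m3, m4, m5, m6, m7, m8, m9, m10, m11⟩ := hmem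
  obtain ⟨C', hC'⟩ := descend E M C m1 m2 m3 m4 (leg (⟨l, m5⟩ : M)) (by
    rw [hC, leg]
    ext <;> simp [WeierstrassCurve.map])
  obtain ⟨D', hD'⟩ := descend E M D m7 m8 m9 m10 (deu (⟨a, m11⟩ : M)) (by
    rw [hD, deu]
    ext <;> simp [WeierstrassCurve.map])
  refine ⟨M, hNF, hfd, hgal, fun w => ?_⟩
  by_cases h2 : (2 : 𝓞 M) ∈ w.asIdeal
  · have h3 : (3 : 𝓞 M) ∉ w.asIdeal := by
      intro h3
      apply w.isPrime.ne_top
      rw [Ideal.eq_top_iff_one]
      have h4 := w.asIdeal.sub_mem h3 h2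
      norm_num at h4
      exact h4
    exact semi_smul D' w hD' (deu_semi _ w h3)
  · refine semi_smul C' w hC' (leg_semi (⟨l, m5⟩ : M) ⟨m, m6⟩ ?_ w h2)
    exact Subtype.ext hm

end global

end Pool.Agent.MP_0d9be2.H29
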