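import Pool.Agent.Lib.MP_0d9be2_nt.Defs3
import Pool.Agent.Lib.MP_0d9be2_nt.H36.GroupLemma

/-!
# Theorem S, part D: almost all places split
-/

set_option autoImplicit false

open scoped NumberField Pointwise
open IsDedekindDomain NumberField

namespace Pool.Agent.MP_0d9be2.H29

open Pool.Agent.MP_0d9be2

theorem exists_over {K M : Type} [Field K] [NumberField K] [Field M] [NumberField M] [Algebra K M]
    (v : HeightOneSpectrum (𝓞 K)) :
    ∃ W : HeightOneSpectrum (𝓞 M), W.asIdeal.LiesOver v.asIdeal := by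
  obtain ⟨Q, hQ1, hQ2⟩ := Ideal.exists_maximal_ideal_liesOver_of_isIntegral (S := 𝓞 M) v.asIdeal
  have hne : Q ≠ ⊥ := by
    rintro rfl
    have h1 := hQ2.over
    rw [Ideal.under_def, Ideal.comap_bot_of_injective _
      (FaithfulSMul.algebraMap_injective (𝓞 K) (𝓞 M))] at h1
    exact v.ne_bot h1
  exact ⟨⟨Q, hQ1.isPrime, hne⟩, hQ2⟩

theorem finrank_fixedField {K M : Type} [Field K] [NumberField K] [Field M] [NumberField M]
    [Algebra K M] [IsGalois K M] (H : Subgroup Gal(M/K)) :
    Module.finrank K (IntermediateField.fixedField H) = H.index := by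
  have h1 := Module.finrank_mul_finrank K (IntermediateField.fixedField H) M
  rw [IntermediateField.finrank_fixedField_eq_card, ← IsGalois.card_aut_eq_finrank K M,
    ← H.index_mul_card] at h1
  exact Nat.eq_of_mul_eq_mul_right Nat.card_pos h1

/-- The numerical part. -/
theorem numeric {G : Type} [Group G] [Finite G] {l r m B D : ℕ} (hl : 0 < l) (H : Subgroup G)
    (S : Finset G) (hS : S.card ≤ B) (hB : m * (B * l) ≤ l ^ r)
    (hfix : ∀ g ∈ S, l ^ r * Nat.card {x : G ⧸ H // g • x = x} ≤ l * H.index)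
    (hD : D ≤ ∑ g ∈ S, Nat.card {x : G ⧸ H // g • x = x}) : m * D ≤ H.index := by
  have hpos : 0 < l ^ r := Nat.pow_pos hl
  have h1 : l ^ r * ∑ g ∈ S, Nat.card {x : G ⧸ H // g • x = x} ≤ B * (l * H.index) := by
    rw [Finset.mul_sum]
    refine (Finset.sum_le_sum hfix).trans ?_
    rw [Finset.sum_const, smul_eq_mul]
    exact Nat.mul_le_mul_right _ hS
  refine Nat.le_of_mul_le_mul_left (c := l ^ r) ?_ hpos
  calc l ^ r * (m * D) = m * (l ^ r * D) := by ring
    _ ≤ m * (l ^ r * ∑ g ∈ S, Nat.card {x : G ⧸ H // g • x = x}) := by gcongr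
    _ ≤ m * (B * (l * H.index)) := by gcongr
    _ = m * (B * l) * H.index := by ring
    _ ≤ l ^ r * H.index := by gcongr

/-- PART D. -/
theorem split (hF : Field_S) (hC : Count_S) (hCI : CountInf_S) : Split_S := by
  classical
  intro K K₁ _ _ _ _ _ _ m
  obtain ⟨l, B, hl, hM⟩ := hF K K₁
  obtain ⟨r, hr⟩ : ∃ r : ℕ, m * ((B + 2) * l) ≤ l ^ r :=
    ⟨m * ((B + 2) * l), (Nat.lt_pow_self hl.one_lt).le⟩
  obtain ⟨M, iF, iN, iK, iM, iT, hgal, N, hNn, hN1, hab, hexp, hind, hconj, hstab⟩ := hM r
  refine ⟨M, iF, iN, iK, iM, iT, hgal, fun p hp H hH => ⟨fun v => ?_, fun v => ?_⟩⟩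
  · obtain ⟨W, hW⟩ := exists_over (M := M) v
    rw [finrank_fixedField]
    have hfin : Fintype Gal(M/K) := Fintype.ofFinite _
    have hfilt := hC K K₁ M H v W hW
      (Finset.univ.filter fun g : Gal(M/K) => g • W.asIdeal = W.asIdeal ∧
        ∃ x : K₁, g (algebraMap K₁ M x) ≠ algebraMap K₁ M x) (fun g h1 h2 => by
        rw [Finset.mem_filter]
        exact ⟨Finset.mem_univ _, h1, h2⟩)
    refine numeric hl.pos H _ (B := B + 2) ?_ hr ?_ hfilt
    · have h1 : (Finset.univ.filter fun g : Gal(M/K) => g • W.asIdeal = W.asIdeal ∧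
          ∃ x : K₁, g (algebraMap K₁ M x) ≠ algebraMap K₁ M x).card ≤
          Nat.card (MulAction.stabilizer Gal(M/K) W.asIdeal) := by
        rw [Nat.card_eq_fintype_card, ← Fintype.card_coe]
        refine Fintype.card_le_of_injective (fun g => ⟨g.1, ?_⟩) ?_
        · exact (Finset.mem_filter.1 g.2).2.1
        · intro a b hab
          exact Subtype.ext (congrArg (fun z => z.1) hab)
      exact (h1.trans (hstab W)).trans (by omega)
    · intro g hg
      rw [Finset.mem_filter] at hg
      have hgN : g ∉ N := by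
        intro h
        obtain ⟨x, hx⟩ := hg.2.2
        exact hx (hN1 g h x)
      exact H36.group_lemma N hl hab hexp hind r hp H hH g (hconj g hgN)
  · obtain ⟨W, hW⟩ := InfinitePlace.comap_surjective (K := M) v
    rw [finrank_fixedField]
    have hfin : Fintype Gal(M/K) := Fintype.ofFinite _
    have hfilt := hCI K K₁ M H v W hW
      (Finset.univ.filter fun g : Gal(M/K) => g • W = W ∧
        ∃ x : K₁, g (algebraMap K₁ M x) ≠ algebraMap K₁ M x) (fun g h1 h2 => by
        rw [Finset.mem_filter]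
        exact ⟨Finset.mem_univ _, h1, h2⟩)
    refine numeric hl.pos H _ (B := B + 2) ?_ hr ?_ hfilt
    · have h1 : (Finset.univ.filter fun g : Gal(M/K) => g • W = W ∧
          ∃ x : K₁, g (algebraMap K₁ M x) ≠ algebraMap K₁ M x).card ≤
          Nat.card (MulAction.stabilizer Gal(M/K) W) := by
        rw [Nat.card_eq_fintype_card, ← Fintype.card_coe]
        refine Fintype.card_le_of_injective (fun g => ⟨g.1, ?_⟩) ?_
        · exact (Finset.mem_filter.1 g.2).2.1
        · intro a b hab
          exact Subtype.ext (congrArg (fun z => z.1) hab)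
      rcases InfinitePlace.nat_card_stabilizer_eq_one_or_two K W with h2 | h2
      · rw [h2] at h1
        omega
      · rw [h2] at h1
        omega
    · intro g hg
      rw [Finset.mem_filter] at hg
      have hgN : g ∉ N := by
        intro h
        obtain ⟨x, hx⟩ := hg.2.2
        exact hx (hN1 g h x)
      exact H36.group_lemma N hl hab hexp hind r hp H hH g (hconj g hgN)

end Pool.Agent.MP_0d9be2.H29
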